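import Mathlib

set_option autoImplicit false

namespace Pool.Agent.V110.CC

open Filter Topology BoundedContinuousFunction
open Polynomial (aeval X)
open scoped Polynomial
open scoped Nat

/-- Bounded continuous complex functions on the line. -/
abbrev B := BoundedContinuousFunction ℝ ℂ

/-- Evaluation as a ring homomorphism. -/
noncomputable def ev (x : ℝ) : B →+* ℂ where
  toFun f := f x
  map_one' := rfl
  map_mul' _ _ := rfl
  map_zero' := rfl
  map_add' _ _ := rfl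

theorem ev_cont (x : ℝ) : Continuous (ev x) :=
  (BoundedContinuousFunction.evalCLM ℂ x : B →L[ℂ] ℂ).continuous

theorem exp_apply (f : B) (x : ℝ) : (NormedSpace.exp f : B) x = Complex.exp (f x) := by
  have := NormedSpace.map_exp (ev x) (ev_cont x) f
  rw [Complex.exp_eq_exp_ℂ]
  exact this

theorem norm_exp_le (f : B) (C : ℝ) (hC : 0 ≤ C) (h : ∀ x, Real.exp (f x).re ≤ C) :
    ‖(NormedSpace.exp f : B)‖ ≤ C := by
  rw [BoundedContinuousFunction.norm_le hC]
  intro x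
  rw [exp_apply, Complex.norm_exp]
  exact h x

theorem hasSum_exp (f : B) (t : ℂ) (L : B →L[ℂ] ℂ) :
    HasSum (fun n : ℕ => t ^ n / (n ! : ℂ) * L (f ^ n)) (L (NormedSpace.exp (t • f))) := by
  have h := NormedSpace.exp_series_hasSum_exp' (𝕂 := ℂ) (t • f)
  have h2 := h.mapL L
  have e : (fun n : ℕ => t ^ n / (n ! : ℂ) * L (f ^ n)) =
      fun n => L (((n ! : ℂ))⁻¹ • (t • f) ^ n) := by
    funext n
    rw [map_smul, smul_pow, map_smul, smul_eq_mul, smul_eq_mul]
    ring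
  rw [e]
  exact h2

/-- First step: an upper bound for all real parts gives a two-sided bound. -/
theorem growth (L : B →L[ℂ] ℂ) (w : B) (hw : ∀ x, 0 ≤ (w x).re) (C : ℝ) (hC : 0 ≤ C)
    (h : ∀ n : ℕ, (L ((-w) ^ n)).re ≤ C) (n : ℕ) :
    |(L ((-w) ^ n)).re| ≤ (C + ‖L‖) * Real.exp 1 ^ n := by
  have key : ∀ t : ℝ, 0 ≤ t → t ^ n / (n ! : ℝ) * (C - (L ((-w) ^ n)).re) ≤
      C * Real.exp t + ‖L‖ := by
    intro t ht
    have h1 := hasSum_exp (-w) (t : ℂ) L
    have h2 := Complex.hasSum_re h1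
    have h3 : HasSum (fun m : ℕ => t ^ m / (m ! : ℝ)) (Real.exp t) := by
      rw [Real.exp_eq_exp_ℝ]
      exact NormedSpace.expSeries_div_hasSum_exp t
    have h4 := (h3.mul_right C).sub h2
    have e : (fun m : ℕ => t ^ m / (m ! : ℝ) * C -
        ((t : ℂ) ^ m / (m ! : ℂ) * L ((-w) ^ m)).re) =
        fun m => t ^ m / (m ! : ℝ) * (C - (L ((-w) ^ m)).re) := by
      funext m
      have : ((t : ℂ) ^ m / (m ! : ℂ)) = ((t ^ m / (m ! : ℝ) : ℝ) : ℂ) := by push_cast; rfl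
      rw [this, Complex.re_ofReal_mul]
      ring
    rw [e] at h4
    have h5 := le_hasSum h4 n fun m _ => mul_nonneg (by positivity) (sub_nonneg.2 (h m))
    refine h5.trans ?_
    have h6 : -(L (NormedSpace.exp ((t : ℂ) • -w))).re ≤ ‖L‖ := by
      have h7 := (Complex.abs_re_le_norm (L (NormedSpace.exp ((t : ℂ) • -w))))
      have h8 := L.le_opNorm (NormedSpace.exp ((t : ℂ) • -w))
      have h9 : ‖(NormedSpace.exp ((t : ℂ) • -w) : B)‖ ≤ 1 := by
        refine norm_exp_le _ 1 zero_le_one fun x => ?_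
        rw [Real.exp_le_one_iff]
        have : (((t : ℂ) • -w : B) x) = -((t : ℂ) * w x) := by simp
        rw [this, Complex.neg_re, Complex.re_ofReal_mul]
        have := mul_nonneg ht (hw x)
        linarith
      have h10 : ‖L‖ * ‖(NormedSpace.exp ((t : ℂ) • -w) : B)‖ ≤ ‖L‖ :=
        mul_le_of_le_one_right (norm_nonneg _) h9
      have := neg_abs_le (L (NormedSpace.exp ((t : ℂ) • -w))).re
      linarith
    linarith
  have hn := key n (Nat.cast_nonneg n)
  have hfac : (1 : ℝ) ≤ (n : ℝ) ^ n / (n ! : ℝ) := by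
    rw [le_div_iff₀ (by positivity), one_mul]
    exact_mod_cast Nat.factorial_le_pow n
  have hnn : 0 ≤ C - (L ((-w) ^ n)).re := sub_nonneg.2 (h n)
  have he : Real.exp (n : ℝ) = Real.exp 1 ^ n := by rw [← Real.exp_nat_mul, mul_one]
  have he1 : (1 : ℝ) ≤ Real.exp 1 ^ n := one_le_pow₀ (Real.one_le_exp zero_le_one)
  rw [he] at hn
  have hL := norm_nonneg L
  have h1 : C - (L ((-w) ^ n)).re ≤ (C + ‖L‖) * Real.exp 1 ^ n := by
    calc C - (L ((-w) ^ n)).re ≤ (n : ℝ) ^ n / (n ! : ℝ) * (C - (L ((-w) ^ n)).re) :=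
          le_mul_of_one_le_left hnn hfac
      _ ≤ C * Real.exp 1 ^ n + ‖L‖ := hn
      _ ≤ (C + ‖L‖) * Real.exp 1 ^ n := by nlinarith
  rw [abs_le]
  constructor
  · linarith
  · have := h n
    nlinarith

/-- The iterates of `3 t ^ 2 - 2 t ^ 3` at `- X / 100`. -/
noncomputable def Pj : ℕ → ℝ[X]
  | 0 => Polynomial.C (-1 / 100) * X
  | n + 1 => (3 : ℝ) • Pj n ^ 2 - (2 : ℝ) • Pj n ^ 3

/-- The shift on sequences. -/
def Sl : (ℕ → ℝ) →ₗ[ℝ] (ℕ → ℝ) := LinearMap.funLeft ℝ ℝ Nat.succ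

theorem Sl_apply (v : ℕ → ℝ) (n : ℕ) : Sl v n = v (n + 1) := rfl

theorem Sl_pow (k : ℕ) (v : ℕ → ℝ) (n : ℕ) : (Sl ^ k) v n = v (n + k) := by
  induction k generalizing v n with
  | zero => rfl
  | succ k ih =>
    rw [pow_succ, Module.End.mul_apply, ih, Sl_apply]
    congr 1

theorem small_iter (j : ℕ) (u : ℕ → ℝ) (D : ℝ) (hu : ∀ m, |u m| ≤ D * Real.exp 1 ^ m) (m : ℕ) :
    |aeval Sl (Pj j) u m| ≤ (1 / 10 * (1 / 2) ^ j * D) * Real.exp 1 ^ m := by
  have hD : ∀ (v : ℕ → ℝ) (D : ℝ), (∀ m, |v m| ≤ D * Real.exp 1 ^ m) → 0 ≤ D := by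
    intro v D h
    have := h 0
    rw [pow_zero, mul_one] at this
    exact (abs_nonneg _).trans this
  induction j generalizing u D m with
  | zero =>
    have h1 : aeval Sl (Pj 0) u m = (-1 / 100) * u (m + 1) := by
      simp only [Pj, map_mul, Polynomial.aeval_C, Polynomial.aeval_X]
      rw [Module.End.mul_apply, Algebra.algebraMap_eq_smul_one]
      rfl
    rw [h1, abs_mul, pow_zero]
    have h2 := hu (m + 1)
    have h3 := Real.exp_one_lt_d9
    have h4 : |(-1 / 100 : ℝ)| = 1 / 100 := by norm_num [abs_of_neg]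
    rw [h4]
    have h5 := hD u D hu
    have h6 : 0 ≤ D * Real.exp 1 ^ m := by positivity
    rw [pow_succ] at h2
    nlinarith
  | succ j ih =>
    have h1 : aeval Sl (Pj (j + 1)) u m = 3 * aeval Sl (Pj j) (aeval Sl (Pj j) u) m -
        2 * aeval Sl (Pj j) (aeval Sl (Pj j) (aeval Sl (Pj j) u)) m := by
      simp only [Pj, map_sub, map_smul, map_pow]
      rfl
    rw [h1]
    set a : ℝ := 1 / 10 * (1 / 2) ^ j with ha
    have hp : (1 / 2 : ℝ) ^ j ≤ 1 := pow_le_one₀ (by norm_num) (by norm_num)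
    have hp0 : 0 < (1 / 2 : ℝ) ^ j := by positivity
    have ha1 : a ≤ 1 / 10 := by linarith
    have ha0 : 0 < a := by positivity
    have k1 := ih u D hu
    have k2 := ih _ _ k1
    have k3 := ih _ _ k2 m
    have k2' := k2 m
    have h5 := hD u D hu
    have h6 : 0 ≤ D * Real.exp 1 ^ m := by positivity
    have h7 : (1 / 10 * (1 / 2 : ℝ) ^ (j + 1) * D) * Real.exp 1 ^ m = a / 2 * (D * Real.exp 1 ^ m) := by
      rw [pow_succ, ha]; ring
    rw [h7]
    have h8 : a * (a * D) * Real.exp 1 ^ m = a ^ 2 * (D * Real.exp 1 ^ m) := by ring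
    have h9 : a * (a * (a * D)) * Real.exp 1 ^ m = a ^ 3 * (D * Real.exp 1 ^ m) := by ring
    rw [h8] at k2'
    rw [h9] at k3
    have h10 : 3 * a ^ 2 + 2 * a ^ 3 ≤ a / 2 := by nlinarith [mul_pos ha0 ha0]
    calc _ ≤ |3 * aeval Sl (Pj j) (aeval Sl (Pj j) u) m| +
        |2 * aeval Sl (Pj j) (aeval Sl (Pj j) (aeval Sl (Pj j) u)) m| := abs_sub _ _
      _ = 3 * |aeval Sl (Pj j) (aeval Sl (Pj j) u) m| +
        2 * |aeval Sl (Pj j) (aeval Sl (Pj j) (aeval Sl (Pj j) u)) m| := by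
          rw [abs_mul, abs_mul]; norm_num
      _ ≤ 3 * (a ^ 2 * (D * Real.exp 1 ^ m)) + 2 * (a ^ 3 * (D * Real.exp 1 ^ m)) := by gcongr
      _ = (3 * a ^ 2 + 2 * a ^ 3) * (D * Real.exp 1 ^ m) := by ring
      _ ≤ _ := by gcongr

theorem near_iter (w : B) (hw : ‖w - 100‖ ≤ 10) (j : ℕ) :
    ‖1 - aeval (-w) (Pj j)‖ ≤ 1 / 10 * (1 / 2) ^ j := by
  induction j with
  | zero =>
    have : (1 : B) - aeval (-w) (Pj 0) = (-1 / 100 : ℝ) • (w - 100) := by
      simp only [Pj, map_mul, Polynomial.aeval_C, Polynomial.aeval_X]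
      rw [Algebra.algebraMap_eq_smul_one, smul_mul_assoc, one_mul]
      ext x
      simp only [BoundedContinuousFunction.coe_sub, BoundedContinuousFunction.coe_one,
        BoundedContinuousFunction.coe_smul, BoundedContinuousFunction.coe_neg, Pi.sub_apply,
        Pi.one_apply, Pi.neg_apply, Complex.real_smul]
      have : ((100 : B) x) = 100 := rfl
      rw [this]
      push_cast
      ring
    rw [this, norm_smul, Real.norm_eq_abs, abs_of_neg (by norm_num)]
    rw [pow_zero]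
    linarith
  | succ j ih =>
    have h1 : (1 : B) - aeval (-w) (Pj (j + 1)) = (1 - aeval (-w) (Pj j)) ^ 2 *
        ((3 : ℝ) • 1 - (2 : ℝ) • (1 - aeval (-w) (Pj j))) := by
      simp only [Pj, map_sub, map_smul, map_pow]
      simp only [Algebra.smul_def, map_ofNat]
      ring
    rw [h1]
    set a := (1 : B) - aeval (-w) (Pj j)
    have hp : (1 / 2 : ℝ) ^ j ≤ 1 := pow_le_one₀ (by norm_num) (by norm_num)
    have ha : ‖a‖ ≤ 1 / 10 := by linarith
    have h2 : ‖(3 : ℝ) • (1 : B) - (2 : ℝ) • a‖ ≤ 3 + 2 * ‖a‖ := by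
      refine (norm_sub_le _ _).trans ?_
      rw [norm_smul, norm_smul, norm_one]
      norm_num
    calc _ ≤ ‖a ^ 2‖ * ‖(3 : ℝ) • (1 : B) - (2 : ℝ) • a‖ := norm_mul_le _ _
      _ ≤ ‖a‖ ^ 2 * (3 + 2 * ‖a‖) := by gcongr; exact norm_pow_le a 2
      _ ≤ ‖a‖ / 2 := by
        have := norm_nonneg a
        nlinarith [mul_nonneg this this, mul_nonneg (mul_nonneg this this) (sub_nonneg.2 ha),
          mul_nonneg this (sub_nonneg.2 ha)]
      _ ≤ _ := by rw [pow_succ]; linarith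

theorem vanish_one (L : B →L[ℂ] ℂ) (w : B) (hw : ‖w - 100‖ ≤ 10) (C : ℝ)
    (h : ∀ n : ℕ, |(L ((-w) ^ n)).re| ≤ C * Real.exp 1 ^ n) : (L 1).re = 0 := by
  have hP : ∀ P : ℝ[X], aeval Sl P (fun n => (L ((-w) ^ n)).re) 0 = (L (aeval (-w) P)).re := by
    intro P
    induction P using Polynomial.induction_on' with
    | add p q hp hq =>
      rw [map_add, map_add, map_add, Complex.add_re, ← hp, ← hq]
      rfl
    | monomial k a =>
      rw [Polynomial.aeval_monomial, Polynomial.aeval_monomial, Algebra.algebraMap_eq_smul_one,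
        Algebra.algebraMap_eq_smul_one, smul_mul_assoc, one_mul, smul_mul_assoc, one_mul]
      have h1 : (a • Sl ^ k) (fun n => (L ((-w) ^ n)).re) 0 =
          a * (Sl ^ k) (fun n => (L ((-w) ^ n)).re) 0 := rfl
      rw [h1, Sl_pow, zero_add]
      have h2 : L (a • (-w) ^ k) = (a : ℂ) * L ((-w) ^ k) := by
        rw [← smul_eq_mul, ← map_smul]
        congr 1
      rw [h2, Complex.re_ofReal_mul]
  have hb : ∀ j : ℕ, |(L 1).re| ≤ (C + ‖L‖) * (1 / 10) * (1 / 2) ^ j := by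
    intro j
    have h1 : L 1 = L (aeval (-w) (Pj j)) + L (1 - aeval (-w) (Pj j)) := by
      rw [← map_add]; congr 1; ring
    have h2 : |(L (aeval (-w) (Pj j))).re| ≤ 1 / 10 * (1 / 2) ^ j * C := by
      rw [← hP]
      have := small_iter j _ C h 0
      rwa [pow_zero, mul_one] at this
    have h6 : |(L (1 - aeval (-w) (Pj j))).re| ≤ ‖L‖ * (1 / 10 * (1 / 2) ^ j) := by
      have h3 := L.le_opNorm (1 - aeval (-w) (Pj j))
      have h5 := near_iter w hw j
      calc |(L (1 - aeval (-w) (Pj j))).re| ≤ ‖L (1 - aeval (-w) (Pj j))‖ :=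
            Complex.abs_re_le_norm _
        _ ≤ _ := h3
        _ ≤ _ := by gcongr
    rw [h1, Complex.add_re]
    calc _ ≤ _ := abs_add_le _ _
      _ ≤ 1 / 10 * (1 / 2) ^ j * C + ‖L‖ * (1 / 10 * (1 / 2) ^ j) := add_le_add h2 h6
      _ = _ := by ring
  have hlim : Tendsto (fun j : ℕ => (C + ‖L‖) * (1 / 10) * (1 / 2 : ℝ) ^ j) atTop (𝓝 0) := by
    have := (tendsto_pow_atTop_nhds_zero_of_lt_one (r := (1 / 2 : ℝ)) (by norm_num)
      (by norm_num)).const_mul ((C + ‖L‖) * (1 / 10))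
    simpa using this
  have := ge_of_tendsto' hlim hb
  exact abs_eq_zero.1 (le_antisymm this (abs_nonneg _))

/-- Second step: all real parts vanish. -/
theorem vanish (L : B →L[ℂ] ℂ) (w : B) (hw0 : ∀ x, 0 ≤ (w x).re) (hw : ‖w - 100‖ ≤ 10) (C : ℝ)
    (h : ∀ n : ℕ, (L ((-w) ^ n)).re ≤ C) (n : ℕ) : (L ((-w) ^ n)).re = 0 := by
  let C' := max C 0
  have h' : ∀ n : ℕ, (L ((-w) ^ n)).re ≤ C' := fun n => (h n).trans (le_max_left _ _)
  have h1 := growth L w hw0 C' (le_max_right _ _) h'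
  let L' : B →L[ℂ] ℂ := L.comp (ContinuousLinearMap.mul ℂ B ((-w) ^ n))
  have h2 : ∀ f, L' f = L ((-w) ^ n * f) := fun f => rfl
  have h3 := vanish_one L' w hw ((C' + ‖L‖) * Real.exp 1 ^ n) (fun m => by
    rw [h2, ← pow_add]
    refine (h1 (n + m)).trans (le_of_eq ?_)
    rw [pow_add]; ring)
  rwa [h2, mul_one] at h3

end Pool.Agent.V110.CC
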