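import Mathlib

set_option autoImplicit false

namespace Pool.Agent.V110.CC

open Filter Topology Complex
open scoped Real ComplexConjugate

theorem pl_bound (A : ℂ → ℂ) (hA : Differentiable ℂ A) (M R : ℝ) (hM : 0 ≤ M) (hR : 0 ≤ R)
    (hgrow : ∀ t, ‖A t‖ ≤ M * Real.exp (R * ‖t‖))
    (hray : ∀ η : ℝ, 0 < η → ∃ α₁ : ℝ, 0 < α₁ ∧ α₁ < π / 2 ∧ ∀ α : ℝ, 0 < α → α ≤ α₁ →
      ∀ r : ℝ, 0 ≤ r → ‖A (r * exp (α * I))‖ ≤ M * Real.exp (η * (r * Real.sin α)))
    (hsym : ∀ t, ‖A (-(conj t))‖ = ‖A t‖) (t : ℂ) (ht : 0 < t.im) : ‖A t‖ ≤ M := by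
  have key : ∀ η : ℝ, 0 < η → ‖A t‖ ≤ M * Real.exp (η * t.im) := by
    intro η hη
    obtain ⟨α₁, h1, h2, h3⟩ := hray η hη
    have harg0 : 0 < arg t := by
      rcases (Complex.arg_nonneg_iff.2 ht.le).lt_or_eq with h | h
      · exact h
      · exfalso
        have := Complex.arg_eq_zero_iff.1 h.symm
        linarith [this.2]
    have hargpi : arg t < π := by
      rcases (Complex.arg_le_pi t).lt_or_eq with h | h
      · exact h
      · exfalso
        have := Complex.arg_eq_pi_iff.1 h
        linarith [this.2]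
    set α₀ : ℝ := min α₁ (min (arg t) (π - arg t)) with hα₀
    have hα₀pos : 0 < α₀ := lt_min h1 (lt_min harg0 (sub_pos.2 hargpi))
    have hα₀1 : α₀ ≤ α₁ := min_le_left _ _
    have hα₀2 : α₀ ≤ arg t := (min_le_right _ _).trans (min_le_left _ _)
    have hα₀3 : α₀ ≤ π - arg t := (min_le_right _ _).trans (min_le_right _ _)
    let F : ℂ → ℂ := fun ζ => A (exp ζ) * exp (I * η * exp ζ)
    have hF : Differentiable ℂ F := by
      have h4 : Differentiable ℂ fun ζ => A (exp ζ) := hA.comp Complex.differentiable_exp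
      exact h4.mul (by fun_prop)
    have hnorm : ∀ ζ : ℂ, ‖exp (I * η * exp ζ)‖ = Real.exp (-(η * (Real.exp ζ.re * Real.sin ζ.im))) := by
      intro ζ
      rw [Complex.norm_exp]
      congr 1
      have : (I * η * exp ζ).re = -(η * (exp ζ).im) := by
        simp [mul_assoc]
      rw [this, Complex.exp_im]
    have hexp : ∀ ζ : ℂ, exp ζ = (Real.exp ζ.re : ℂ) * exp (ζ.im * I) := by
      intro ζ
      rw [Complex.ofReal_exp, ← Complex.exp_add, Complex.re_add_im]
    have hstrip := PhragmenLindelof.horizontal_strip (f := F) (a := α₀) (b := π - α₀) (C := M)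
      (z := Complex.log t) hF.diffContOnCl ?_ ?_ ?_ ?_ ?_
    · simp only [F] at hstrip
      have ht0 : t ≠ 0 := by rintro rfl; simp at ht
      rw [Complex.exp_log ht0, norm_mul] at hstrip
      have h5 : ‖exp (I * η * t)‖ = Real.exp (-(η * t.im)) := by
        rw [Complex.norm_exp]
        congr 1
        simp [mul_assoc]
      rw [h5, Real.exp_neg] at hstrip
      have h6 := Real.exp_pos (η * t.im)
      rwa [← div_eq_mul_inv, div_le_iff₀ h6] at hstrip
    · refine ⟨1, ?_, R + η, ?_⟩
      · rw [lt_div_iff₀ (by linarith)]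
        linarith
      · refine Asymptotics.IsBigO.of_bound M (Eventually.of_forall fun ζ => ?_)
        rw [Real.norm_eq_abs, abs_of_pos (Real.exp_pos _)]
        simp only [F]
        rw [norm_mul, hnorm]
        have h5 := hgrow (exp ζ)
        rw [Complex.norm_exp] at h5
        have h6 : Real.exp ζ.re ≤ Real.exp (1 * |ζ.re|) := by
          rw [one_mul]; exact Real.exp_le_exp.2 (le_abs_self _)
        have h7 : -(η * (Real.exp ζ.re * Real.sin ζ.im)) ≤ η * Real.exp ζ.re := by
          have := Real.neg_one_le_sin ζ.im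
          have h8 := mul_pos hη (Real.exp_pos ζ.re)
          nlinarith
        calc ‖A (exp ζ)‖ * Real.exp (-(η * (Real.exp ζ.re * Real.sin ζ.im)))
            ≤ (M * Real.exp (R * Real.exp ζ.re)) * Real.exp (η * Real.exp ζ.re) := by
              gcongr
          _ = M * Real.exp ((R + η) * Real.exp ζ.re) := by
              rw [mul_assoc, ← Real.exp_add]; ring_nf
          _ ≤ _ := by gcongr
    · intro z hz
      simp only [F]
      rw [norm_mul, hnorm, hz]
      have h5 := h3 α₀ hα₀pos hα₀1 (Real.exp z.re) (Real.exp_pos _).le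
      rw [hexp z, hz]
      calc _ ≤ M * Real.exp (η * (Real.exp z.re * Real.sin α₀)) *
            Real.exp (-(η * (Real.exp z.re * Real.sin α₀))) := by gcongr
        _ = M := by rw [mul_assoc, ← Real.exp_add]; simp
    · intro z hz
      simp only [F]
      rw [norm_mul, hnorm, hz, Real.sin_pi_sub]
      have h5 := h3 α₀ hα₀pos hα₀1 (Real.exp z.re) (Real.exp_pos _).le
      have h6 : exp z = -(conj ((Real.exp z.re : ℂ) * exp (α₀ * I))) := by
        rw [hexp z, hz, map_mul, Complex.conj_ofReal, ← Complex.exp_conj, map_mul,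
          Complex.conj_ofReal, Complex.conj_I, ← mul_neg]
        congr 1
        rw [← Complex.exp_add_pi_mul_I]
        congr 1
        push_cast
        ring
      rw [h6, hsym]
      calc _ ≤ M * Real.exp (η * (Real.exp z.re * Real.sin α₀)) *
            Real.exp (-(η * (Real.exp z.re * Real.sin α₀))) := by gcongr
        _ = M := by rw [mul_assoc, ← Real.exp_add]; simp
    · rw [Complex.log_im]; exact hα₀2
    · rw [Complex.log_im]; linarith
  have hlim : Tendsto (fun η : ℝ => M * Real.exp (η * t.im)) (𝓝[>] 0) (𝓝 (M * Real.exp (0 * t.im))) := by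
    have : Continuous fun η : ℝ => M * Real.exp (η * t.im) := by fun_prop
    exact this.continuousAt.tendsto.mono_left nhdsWithin_le_nhds
  rw [zero_mul, Real.exp_zero, mul_one] at hlim
  refine ge_of_tendsto hlim ?_
  filter_upwards [self_mem_nhdsWithin] with η hη
  exact key η hη

end Pool.Agent.V110.CC
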