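import Pool.Agent.V110.CC.Alg
import Pool.Agent.V110.CC.PL

set_option autoImplicit false

namespace Pool.Agent.V110.CC

open Filter Topology Complex
open scoped Real ComplexConjugate Nat

theorem A_norm (L : B →L[ℂ] ℂ) (v : B) (t : ℂ) (K : ℝ)
    (h : ∀ x, (t * (I * v x)).re ≤ K) :
    ‖L (NormedSpace.exp (t • (I • v)))‖ ≤ ‖L‖ * Real.exp K := by
  refine (L.le_opNorm _).trans ?_
  gcongr
  refine norm_exp_le _ _ (Real.exp_pos _).le fun x => ?_
  refine Real.exp_le_exp.2 ?_
  exact h x

theorem re_formula (a b : ℝ) (z : ℂ) : (((a : ℂ) + b * I) * (I * z)).re = -(a * z.im + b * z.re) := by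
  simp
  ring

theorem polar (r α : ℝ) : (r : ℂ) * exp (α * I) =
    ((r * Real.cos α : ℝ) : ℂ) + ((r * Real.sin α : ℝ) : ℂ) * I := by
  rw [Complex.exp_mul_I]
  push_cast
  ring

/-- Third step. -/
theorem all_zero (L : B →L[ℂ] ℂ) (v : B) (hre : ∀ n : ℕ, (L (v ^ n)).re = 0)
    (h0 : ∀ x, 0 ≤ (v x).im) (c : ℝ) (hc : 0 < c) (h4 : ∀ x, c * (v x).re ^ 4 ≤ (v x).im)
    (hdec : Tendsto (fun n : ℕ => L (NormedSpace.exp ((n : ℂ) • (I • v)))) atTop (𝓝 0)) (n : ℕ) :
    L (v ^ n) = 0 := by
  set A : ℂ → ℂ := fun t => L (NormedSpace.exp (t • (I • v))) with hA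
  have hderiv : ∀ t, HasDerivAt (fun t : ℂ => (NormedSpace.exp (t • (I • v)) : B))
      (NormedSpace.exp (t • (I • v)) * (I • v)) t := fun t =>
    hasDerivAt_exp_smul_const (𝕂 := ℂ) (I • v) t
  have hAd : Differentiable ℂ A := fun t =>
    (L.hasFDerivAt.comp_hasDerivAt t (hderiv t)).differentiableAt
  have hvx : ∀ x, ‖v x‖ ≤ ‖v‖ := fun x => v.norm_coe_le_norm x
  have hL := norm_nonneg L
  have hv := norm_nonneg v
  have hgrow : ∀ t, ‖A t‖ ≤ ‖L‖ * Real.exp (‖v‖ * ‖t‖) := by
    intro t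
    refine A_norm L v t _ fun x => ?_
    refine (Complex.re_le_norm _).trans ?_
    rw [norm_mul, norm_mul, Complex.norm_I, one_mul, mul_comm]
    gcongr
    exact hvx x
  have hsym : ∀ t, A (-(conj t)) = -(conj (A t)) := by
    intro t
    have h1 := hasSum_exp (I • v) t L
    have h2 := hasSum_exp (I • v) (-(conj t)) L
    have h3 := (Complex.hasSum_conj'.2 h1 : HasSum _ (conj (L (NormedSpace.exp (t • (I • v))))))
    have h3' := h3.neg
    have e : (fun m : ℕ => (-(conj t)) ^ m / (m ! : ℂ) * L ((I • v) ^ m)) =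
        fun m : ℕ => -(conj (t ^ m / (m ! : ℂ) * L ((I • v) ^ m))) := by
      funext m
      have hm : conj (L (v ^ m)) = -L (v ^ m) := by
        apply Complex.ext
        · simp [hre m]
        · simp
      have h5 : L ((I • v) ^ m) = I ^ m * L (v ^ m) := by
        rw [smul_pow, map_smul, smul_eq_mul]
      have h6 : conj (t ^ m / (m ! : ℂ) * (I ^ m * L (v ^ m))) =
          (conj t) ^ m / (m ! : ℂ) * ((-I) ^ m * -L (v ^ m)) := by
        rw [← hm]
        simp only [map_mul, map_div₀, map_pow, Complex.conj_I, Complex.conj_natCast]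
      rw [h5, h6, neg_pow (conj t), neg_pow I]
      ring
    rw [e] at h2
    exact h2.unique h3'
  have hb1 : ∀ η : ℝ, 0 < η → ∃ α₁ : ℝ, 0 < α₁ ∧ α₁ < π / 2 ∧ ∀ α : ℝ, 0 < α → α ≤ α₁ →
      Real.sin α * ‖v‖ ≤ Real.cos α * (c * η ^ 4) ∧ 0 ≤ Real.sin α ∧ 0 ≤ Real.cos α := by
    intro η hη
    have hpi := Real.pi_pos
    have hpos : 0 < c * η ^ 4 / (2 * (‖v‖ + 1)) := by positivity
    refine ⟨min (π / 3) (c * η ^ 4 / (2 * (‖v‖ + 1))), lt_min (by positivity) hpos,
      (min_le_left _ _).trans_lt (by linarith), fun α hα0 hα => ?_⟩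
    have hα1 : α ≤ π / 3 := hα.trans (min_le_left _ _)
    have hα2 : α ≤ c * η ^ 4 / (2 * (‖v‖ + 1)) := hα.trans (min_le_right _ _)
    have hcos : 1 / 2 ≤ Real.cos α := by
      rw [← Real.cos_pi_div_three]
      exact Real.cos_le_cos_of_nonneg_of_le_pi hα0.le (by linarith) hα1
    have hsin : Real.sin α ≤ α := Real.sin_le hα0.le
    have hsin0 : 0 ≤ Real.sin α := Real.sin_nonneg_of_nonneg_of_le_pi hα0.le (by linarith)
    refine ⟨?_, hsin0, by linarith⟩
    have h5 : α * (‖v‖ + 1) ≤ c * η ^ 4 / 2 := by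
      rw [le_div_iff₀ (by positivity)] at hα2
      linarith
    have h6 : 0 < c * η ^ 4 := by positivity
    nlinarith
  have hpl : ∀ t : ℂ, 0 < t.im → ‖A t‖ ≤ ‖L‖ := by
    refine pl_bound A hAd ‖L‖ ‖v‖ hL hv hgrow (fun η hη => ?_) (fun t => by rw [hsym, norm_neg,
      Complex.norm_conj])
    obtain ⟨α₁, h1, h2, h3⟩ := hb1 η hη
    refine ⟨α₁, h1, h2, fun α hα hα1 r hr => ?_⟩
    obtain ⟨h5, h6, h7⟩ := h3 α hα hα1
    refine A_norm L v _ _ fun x => ?_
    rw [polar, re_formula]
    have h8 := h0 x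
    have h9 := h4 x
    have h10 : -‖v‖ ≤ (v x).re := (neg_le_neg (hvx x)).trans
      ((neg_le_neg (Complex.abs_re_le_norm _)).trans (neg_abs_le _))
    rcases le_or_gt (-η) (v x).re with h | h
    · have := mul_nonneg (mul_nonneg hr h7) h8
      have h11 := mul_nonneg (mul_nonneg hr h6) (sub_nonneg.2 h)
      nlinarith
    · have h12 : η ^ 4 ≤ (v x).re ^ 4 := by
        have : η ^ 4 ≤ (-(v x).re) ^ 4 := by gcongr; linarith
        rwa [Even.neg_pow (by decide : Even 4)] at this
      have h13 : c * η ^ 4 ≤ (v x).im := (mul_le_mul_of_nonneg_left h12 hc.le).trans h9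
      have h14 : r * (Real.sin α * ‖v‖) ≤ r * (Real.cos α * (v x).im) := by
        exact mul_le_mul_of_nonneg_left (h5.trans (mul_le_mul_of_nonneg_left h13 h7)) hr
      have h15 : -(r * Real.sin α * (v x).re) ≤ r * (Real.sin α * ‖v‖) := by
        have := mul_nonneg (mul_nonneg hr h6) (sub_nonneg.2 h10)
        nlinarith
      have h16 : 0 ≤ η * (r * Real.sin α) := by positivity
      nlinarith
  have hpl' : ∀ t : ℂ, 0 < t.im → ‖conj (A (conj t))‖ ≤ ‖L‖ := by
    have hAd' : Differentiable ℂ fun t => conj (A (conj t)) := by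
      intro t
      have := (hAd (conj t)).conj_conj
      rw [Complex.conj_conj] at this
      exact this
    refine pl_bound _ hAd' ‖L‖ ‖v‖ hL hv (fun t => ?_) (fun η hη => ?_) (fun t => ?_)
    · rw [Complex.norm_conj]
      have := hgrow (conj t)
      rwa [Complex.norm_conj] at this
    · obtain ⟨α₁, h1, h2, h3⟩ := hb1 η hη
      refine ⟨α₁, h1, h2, fun α hα hα1 r hr => ?_⟩
      obtain ⟨h5, h6, h7⟩ := h3 α hα hα1
      rw [Complex.norm_conj]
      refine A_norm L v _ _ fun x => ?_
      have hc' : conj ((r : ℂ) * exp (α * I)) =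
          ((r * Real.cos α : ℝ) : ℂ) + ((-(r * Real.sin α) : ℝ) : ℂ) * I := by
        rw [polar]
        apply Complex.ext <;> simp
      rw [hc', re_formula]
      have h8 := h0 x
      have h9 := h4 x
      have h10 : (v x).re ≤ ‖v‖ := (Complex.re_le_norm _).trans (hvx x)
      rcases le_or_gt (v x).re η with h | h
      · have := mul_nonneg (mul_nonneg hr h7) h8
        have h11 := mul_nonneg (mul_nonneg hr h6) (sub_nonneg.2 h)
        nlinarith
      · have h12 : η ^ 4 ≤ (v x).re ^ 4 := by gcongr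
        have h13 : c * η ^ 4 ≤ (v x).im := (mul_le_mul_of_nonneg_left h12 hc.le).trans h9
        have h14 : r * (Real.sin α * ‖v‖) ≤ r * (Real.cos α * (v x).im) := by
          exact mul_le_mul_of_nonneg_left (h5.trans (mul_le_mul_of_nonneg_left h13 h7)) hr
        have h15 : (r * Real.sin α * (v x).re) ≤ r * (Real.sin α * ‖v‖) := by
          have := mul_nonneg (mul_nonneg hr h6) (sub_nonneg.2 h10)
          nlinarith
        have h16 : 0 ≤ η * (r * Real.sin α) := by positivity
        nlinarith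
    · have : conj (-(conj t)) = -(conj (conj t)) := by simp
      rw [this, hsym, Complex.norm_conj, norm_neg, Complex.norm_conj]
  have hbd : ∀ t : ℂ, ‖A t‖ ≤ ‖L‖ := by
    intro t
    rcases lt_trichotomy t.im 0 with h | h | h
    · have := hpl' (conj t) (by simpa using h)
      rwa [Complex.conj_conj, Complex.norm_conj] at this
    · have hcont : Tendsto (fun ε : ℝ => ‖A (t + ε * I)‖) (𝓝[>] 0) (𝓝 ‖A (t + (0 : ℝ) * I)‖) := by
        have h1 : Continuous fun ε : ℝ => ‖A (t + ε * I)‖ :=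
          (hAd.continuous.comp (by fun_prop)).norm
        exact h1.continuousAt.tendsto.mono_left nhdsWithin_le_nhds
      have h2 : ‖A (t + (0 : ℝ) * I)‖ ≤ ‖L‖ := by
        refine le_of_tendsto hcont ?_
        filter_upwards [self_mem_nhdsWithin] with ε hε
        refine hpl _ ?_
        simp [h]
        exact hε
      simpa using h2
    · exact hpl t h
  have hconst : ∀ t, A t = A 0 := fun t =>
    hAd.apply_eq_apply_of_bounded (isBounded_iff_forall_norm_le.2
      ⟨‖L‖, by rintro _ ⟨t, rfl⟩; exact hbd t⟩) t 0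
  have hzero : ∀ t, A t = 0 := by
    have h1 : Tendsto (fun n : ℕ => A n) atTop (𝓝 0) := hdec
    have h2 : Tendsto (fun n : ℕ => A n) atTop (𝓝 (A 0)) := by
      refine tendsto_const_nhds.congr fun n => (hconst n).symm
    intro t
    rw [hconst t]
    exact tendsto_nhds_unique h2 h1
  have hall : ∀ m : ℕ, ∀ t : ℂ, L (v ^ m * NormedSpace.exp (t • (I • v))) = 0 := by
    intro m
    induction m with
    | zero => intro t; rw [pow_zero, one_mul]; exact hzero t
    | succ m ih =>
      intro t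
      have h1 := ((hderiv t).const_mul (v ^ m))
      have h2 := L.hasFDerivAt.comp_hasDerivAt t h1
      have h3 : (fun t : ℂ => L (v ^ m * NormedSpace.exp (t • (I • v)))) = fun _ => 0 := funext ih
      have h4 : HasDerivAt (fun t : ℂ => L (v ^ m * NormedSpace.exp (t • (I • v)))) 0 t := by
        rw [h3]; exact hasDerivAt_const _ _
      have h5 := h2.unique h4
      have h6 : v ^ m * (NormedSpace.exp (t • (I • v)) * (I • v)) =
          I • (v ^ (m + 1) * NormedSpace.exp (t • (I • v))) := by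
        rw [mul_smul_comm, mul_smul_comm, pow_succ]
        congr 1
        ring
      rw [h6, map_smul, smul_eq_mul] at h5
      exact (mul_eq_zero.1 h5).resolve_left Complex.I_ne_zero
  have := hall n 0
  rwa [zero_smul, NormedSpace.exp_zero, mul_one] at this

end Pool.Agent.V110.CC
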