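import Pool.Agent.V110.CC.Main

set_option autoImplicit false

namespace Pool.Agent.V110.CC

open Filter Topology Complex MeasureTheory
open scoped Real ComplexConjugate Nat InnerProductSpace

theorem one_sub_cos_le (θ : ℝ) : 1 - Real.cos θ ≤ θ ^ 2 / 2 := by
  have := Real.one_sub_sq_div_two_le_cos (x := θ)
  linarith

theorem norm_pow_sub_one_le (w : ℂ) (n : ℕ) : ‖(1 + w) ^ n - 1‖ ≤ (1 + ‖w‖) ^ n - 1 := by
  induction n with
  | zero => simp
  | succ n ih =>
    have h1 : (1 + w) ^ (n + 1) - 1 = ((1 + w) ^ n - 1) * (1 + w) + w := by ring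
    rw [h1]
    have h2 : ‖1 + w‖ ≤ 1 + ‖w‖ := by
      refine (norm_add_le _ _).trans ?_
      rw [norm_one]
    calc ‖((1 + w) ^ n - 1) * (1 + w) + w‖ ≤ ‖((1 + w) ^ n - 1) * (1 + w)‖ + ‖w‖ := norm_add_le _ _
      _ = ‖(1 + w) ^ n - 1‖ * ‖1 + w‖ + ‖w‖ := by rw [norm_mul]
      _ ≤ ((1 + ‖w‖) ^ n - 1) * (1 + ‖w‖) + ‖w‖ := by
        gcongr
        exact (norm_nonneg _).trans ih
      _ = _ := by ring

/-- Near the contact point the powers have large real part. -/
theorem re_pow_ge (θ : ℝ) (n : ℕ) (h : n * θ ^ 4 ≤ 1) :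
    1 / 2 * (ww θ).re ^ n ≤ ((ww θ) ^ n).re := by
  set ρ := (ww θ).re with hρ
  have hρ90 : 90 ≤ ρ := ww_re_ge θ
  have hρ0 : 0 < ρ := by linarith
  set ε := (ww θ).im / ρ with hε
  have h1 : ww θ = ρ * (1 + ε * I) := by
    apply Complex.ext
    · simp [hρ]
    · simp only [Complex.mul_im, Complex.ofReal_re, Complex.add_im, Complex.one_im, Complex.ofReal_im,
        Complex.I_im, Complex.I_re, Complex.add_re, Complex.one_re, Complex.mul_re, hε]
      field_simp
      ring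
  have him0 : 0 ≤ (ww θ).im := by rw [ww_im]; positivity
  have him : (ww θ).im ≤ θ ^ 4 / 2 := by
    rw [ww_im]
    have h2 := one_sub_cos_le θ
    have h3 : 0 ≤ 1 - Real.cos θ := by linarith [Real.cos_le_one θ]
    have h4 : (1 - Real.cos θ) ^ 2 ≤ (θ ^ 2 / 2) ^ 2 := by gcongr
    nlinarith
  have hε0 : 0 ≤ ε := by positivity
  have hε1 : n * ε ≤ 1 / 180 := by
    rw [hε, mul_div_assoc', div_le_iff₀ hρ0]
    have h2 : n * (ww θ).im ≤ n * (θ ^ 4 / 2) := by gcongr
    nlinarith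
  have h2 : ‖(1 + (ε : ℂ) * I) ^ n - 1‖ ≤ 1 / 2 := by
    refine (norm_pow_sub_one_le _ _).trans ?_
    have h3 : ‖(ε : ℂ) * I‖ = ε := by
      rw [norm_mul, Complex.norm_I, mul_one, Complex.norm_real, Real.norm_of_nonneg hε0]
    rw [h3]
    have h4 : (1 + ε) ^ n ≤ Real.exp (1 / 180) := by
      calc (1 + ε) ^ n ≤ (Real.exp ε) ^ n := by
            gcongr
            linarith [Real.add_one_le_exp ε]
        _ = Real.exp (n * ε) := by rw [Real.exp_nat_mul]
        _ ≤ _ := Real.exp_le_exp.2 hε1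
    have h5 : Real.exp (1 / 180) ≤ 3 / 2 := by
      have h6 := Real.exp_bound_div_one_sub_of_interval (x := 1 / 180) (by norm_num) (by norm_num)
      norm_num at h6 ⊢
      linarith
    linarith
  have h3 : 1 / 2 ≤ ((1 + (ε : ℂ) * I) ^ n).re := by
    have h4 := (Complex.abs_re_le_norm ((1 + (ε : ℂ) * I) ^ n - 1)).trans h2
    have h5 := neg_abs_le ((1 + (ε : ℂ) * I) ^ n - 1).re
    rw [Complex.sub_re, Complex.one_re] at h4 h5
    linarith
  rw [h1, _root_.mul_pow, ← Complex.ofReal_pow, Complex.re_ofReal_mul]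
  have : 0 < ρ ^ n := by positivity
  nlinarith

theorem re_ge (θ δ : ℝ) (h0 : 0 < δ) (h1 : δ ≤ 1 / 2) (hθ : -(δ / 8) < θ) (hθ0 : θ < 0) :
    100 - 3 / 10 * δ ≤ (ww θ).re := by
  rw [ww_re]
  have h2 := Real.le_sin hθ0.le
  have h3 := one_sub_cos_le θ
  have h4 : θ ^ 2 ≤ 1 / 4 := by nlinarith
  have h5 : 2 - Real.cos θ ≤ 6 / 5 := by linarith
  have h6 : 0 ≤ 2 - Real.cos θ := by linarith [Real.cos_le_one θ]
  have h7 : 2 * θ * (2 - Real.cos θ) ≤ 2 * Real.sin θ * (2 - Real.cos θ) := by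
    gcongr
  have h8 : θ * (6 / 5) ≤ θ * (2 - Real.cos θ) := mul_le_mul_of_nonpos_left h5 hθ0.le
  nlinarith

theorem norm_le_far (θ δ : ℝ) (h0 : 0 < δ) (hθ : θ ≤ -δ) (hθ1 : -(1 / 2) < θ) :
    ‖ww θ‖ ≤ 100 - 6 / 5 * δ := by
  have hpi := Real.pi_lt_d2
  have hpi0 := Real.pi_gt_three
  have h1 : ‖ww θ‖ ≤ |(ww θ).re| + |(ww θ).im| := Complex.norm_le_abs_re_add_abs_im _
  have h2 : 0 ≤ (ww θ).im := by rw [ww_im]; positivity
  have h3 : 0 ≤ (ww θ).re := le_trans (by norm_num) (ww_re_ge θ)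
  rw [abs_of_nonneg h2, abs_of_nonneg h3, ww_re, ww_im] at h1
  refine h1.trans ?_
  have h4 : Real.sin θ ≤ 2 / π * θ := Real.sin_le_mul (by linarith) (by linarith)
  have h5 : 63 / 100 ≤ 2 / π := by
    rw [le_div_iff₀ (by positivity)]
    nlinarith
  have h6 : 2 / π * θ ≤ 63 / 100 * θ := mul_le_mul_of_nonpos_right h5 (by linarith)
  have h7 : Real.sin θ ≤ 63 / 100 * θ := h4.trans h6
  have h8 : Real.sin θ ≤ 0 := by nlinarith
  have h9 : 1 ≤ 2 - Real.cos θ := by linarith [Real.cos_le_one θ]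
  have h10 : Real.sin θ * (2 - Real.cos θ) ≤ Real.sin θ * 1 := mul_le_mul_of_nonpos_left h9 h8
  have h11 := one_sub_cos_le θ
  have h12 : 0 ≤ 1 - Real.cos θ := by linarith [Real.cos_le_one θ]
  have h13 : (1 - Real.cos θ) ^ 2 ≤ (θ ^ 2 / 2) ^ 2 := by gcongr
  have h14 : θ ^ 2 ≤ 1 / 4 := by nlinarith
  have h15 : θ ^ 2 ≤ 1 / 2 * (-θ) := by nlinarith
  have h16 : (θ ^ 2 / 2) ^ 2 ≤ 1 / 32 * (-θ) := by nlinarith
  nlinarith

/-- Squared norm of a cut function. -/
theorem norm_cut_sq (δ : ℝ) (x : K) :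
    ‖cut δ x‖ ^ 2 = ∫ θ, (Set.Ioo (-δ) 0).indicator (fun θ => ‖x θ‖ ^ 2) θ ∂μ0 := by
  have h1 : ‖cut δ x‖ ^ 2 = (⟪cut δ x, cut δ x⟫_ℂ).re := by
    rw [inner_self_eq_norm_sq_to_K]
    norm_cast
  rw [h1, MeasureTheory.L2.inner_def]
  have h2 : Integrable (fun θ => ⟪cut δ x θ, cut δ x θ⟫_ℂ) μ0 := MeasureTheory.L2.integrable_inner _ _
  rw [← Complex.reCLM_apply, ← Complex.reCLM.integral_comp_comm h2]
  refine integral_congr_ae ?_
  filter_upwards [cut_coe δ x] with θ h3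
  rw [h3, Complex.reCLM_apply, inner_self_eq_norm_sq_to_K]
  by_cases h4 : θ ∈ Set.Ioo (-δ) 0
  · rw [Set.indicator_of_mem h4, Set.indicator_of_mem h4]
    norm_cast
  · rw [Set.indicator_of_notMem h4, Set.indicator_of_notMem h4]
    simp

theorem norm_sq_eq (x : K) : ‖x‖ ^ 2 = ∫ θ, ‖x θ‖ ^ 2 ∂μ0 := by
  have h1 : ‖x‖ ^ 2 = (⟪x, x⟫_ℂ).re := by
    rw [inner_self_eq_norm_sq_to_K]
    norm_cast
  rw [h1, MeasureTheory.L2.inner_def]
  have h2 : Integrable (fun θ => ⟪x θ, x θ⟫_ℂ) μ0 := MeasureTheory.L2.integrable_inner _ _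
  rw [← Complex.reCLM_apply, ← Complex.reCLM.integral_comp_comm h2]
  refine integral_congr_ae (ae_of_all _ fun θ => ?_)
  change (⟪x θ, x θ⟫_ℂ).re = _
  rw [inner_self_eq_norm_sq_to_K]
  norm_cast

theorem integrable_sq (x : K) : Integrable (fun θ => ‖x θ‖ ^ 2) μ0 :=
  (memLp_two_iff_integrable_sq_norm (Lp.aestronglyMeasurable x)).1 (Lp.memLp x)

theorem main_lower (x : K) (n : ℕ) (δ : ℝ) (h0 : 0 < δ) (h1 : δ ≤ 1 / 2) (hn : n * δ ^ 4 ≤ 1) :
    1 / 2 * (100 - 3 / 10 * δ) ^ n * ‖cut (δ / 8) x‖ ^ 2 - (100 - 6 / 5 * δ) ^ n * ‖x‖ ^ 2 ≤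
      (⟪cut (1 / 2) x, mul (ww ^ n) x⟫_ℂ).re := by
  rw [MeasureTheory.L2.inner_def]
  have h2 : Integrable (fun θ => ⟪cut (1 / 2) x θ, mul (ww ^ n) x θ⟫_ℂ) μ0 :=
    MeasureTheory.L2.integrable_inner _ _
  rw [← Complex.reCLM_apply, ← Complex.reCLM.integral_comp_comm h2, norm_cut_sq, norm_sq_eq,
    ← integral_const_mul, ← integral_const_mul, ← integral_sub]
  · refine integral_mono_ae ?_ ?_ ?_
    · exact (((integrable_sq x).indicator measurableSet_Ioo).const_mul _).sub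
        ((integrable_sq x).const_mul _)
    · exact Complex.reCLM.integrable_comp h2
    · filter_upwards [cut_coe (1 / 2) x, mul_coe (ww ^ n) x] with θ h3 h4
      rw [Complex.reCLM_apply, h3, h4]
      have h5 : (0 : ℝ) ≤ ‖x θ‖ ^ 2 := by positivity
      have h6 : 0 ≤ 100 - 6 / 5 * δ := by linarith
      have h7 : 0 ≤ (100 - 6 / 5 * δ) ^ n := by positivity
      by_cases h8 : θ ∈ Set.Ioo (-(1 / 2)) 0
      · rw [Set.indicator_of_mem h8]
        have h9 : (⟪x θ, (ww ^ n) θ * x θ⟫_ℂ).re = ((ww θ) ^ n).re * ‖x θ‖ ^ 2 := by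
          rw [RCLike.inner_apply]
          change ((ww θ) ^ n * x θ * conj (x θ)).re = _
          rw [mul_assoc, Complex.mul_conj, Complex.normSq_eq_norm_sq, Complex.re_mul_ofReal]
        rw [h9]
        by_cases h10 : θ ∈ Set.Ioo (-(δ / 8)) 0
        · rw [Set.indicator_of_mem h10]
          have h11 := re_ge θ δ h0 h1 h10.1 h10.2
          have h12 : θ ^ 4 ≤ δ ^ 4 := by
            have h13 : |θ| ≤ δ := by
              rw [abs_of_neg h10.2]; linarith [h10.1]
            calc θ ^ 4 = |θ| ^ 4 := by rw [Even.pow_abs (by decide)]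
              _ ≤ δ ^ 4 := by gcongr
          have h13 := re_pow_ge θ n (le_trans (by gcongr) hn)
          have h14 : (100 - 3 / 10 * δ) ^ n ≤ (ww θ).re ^ n := by
            gcongr
            linarith
          nlinarith
        · rw [Set.indicator_of_notMem h10, mul_zero, zero_sub]
          have h11 : -(100 - 6 / 5 * δ) ^ n ≤ ((ww θ) ^ n).re := by
            rcases le_or_gt θ (-δ) with h12 | h12
            · have h13 := norm_le_far θ δ h0 h12 h8.1
              have h14 : ‖(ww θ) ^ n‖ ≤ (100 - 6 / 5 * δ) ^ n := by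
                rw [norm_pow]
                gcongr
              have h15 := (Complex.abs_re_le_norm ((ww θ) ^ n)).trans h14
              have h16 := neg_abs_le ((ww θ) ^ n).re
              linarith
            · have h13 : |θ| ≤ δ := by
                rw [abs_of_neg h8.2]; linarith
              have h14 : θ ^ 4 ≤ δ ^ 4 := by
                calc θ ^ 4 = |θ| ^ 4 := by rw [Even.pow_abs (by decide)]
                  _ ≤ δ ^ 4 := by gcongr
              have h15 := re_pow_ge θ n (le_trans (by gcongr) hn)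
              have h16 : 0 ≤ (ww θ).re ^ n := pow_nonneg (le_trans (by norm_num) (ww_re_ge θ)) n
              linarith
          nlinarith
      · rw [Set.indicator_of_notMem h8, inner_zero_left]
        have h9 : θ ∉ Set.Ioo (-(δ / 8)) 0 := fun h => h8 ⟨by linarith [h.1], h.2⟩
        rw [Set.indicator_of_notMem h9, mul_zero, zero_sub, Complex.zero_re]
        have := mul_nonneg h7 h5
        linarith
  · exact ((integrable_sq x).indicator measurableSet_Ioo).const_mul _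
  · exact (integrable_sq x).const_mul _

end Pool.Agent.V110.CC
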