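import Pool.Agent.V110.CC.Flat

set_option autoImplicit false

namespace Pool.Agent.V110.CC

open Filter Topology Complex MeasureTheory
open scoped Real ComplexConjugate Nat InnerProductSpace

/-- `i (1 - z) (3 - z)` on the circle. -/
noncomputable def vv : B := I • ((1 - e 1) * (3 - e 1))

/-- The symbol `100 + i (1 - z) (3 - z)` on the circle. -/
noncomputable def ww : B := 100 + vv

theorem e1_apply (θ : ℝ) : e 1 θ = (Real.cos θ : ℂ) + (Real.sin θ : ℂ) * I := by
  rw [e_apply]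
  push_cast
  rw [one_mul, Complex.exp_mul_I]

theorem vv_apply (θ : ℝ) : vv θ = I * ((1 - e 1 θ) * (3 - e 1 θ)) := rfl

theorem ww_apply (θ : ℝ) : ww θ = 100 + vv θ := rfl

theorem vv_eq (θ : ℝ) : vv θ = ((2 * Real.sin θ * (2 - Real.cos θ) : ℝ) : ℂ) +
    ((2 * (1 - Real.cos θ) ^ 2 : ℝ) : ℂ) * I := by
  rw [vv_apply, e1_apply]
  have h : (Real.sin θ : ℂ) ^ 2 = 1 - (Real.cos θ : ℂ) ^ 2 := by
    have := Real.sin_sq θ
    exact_mod_cast this
  push_cast at h ⊢
  linear_combination (norm := skip) (-I) * h + (4 * Complex.sin θ - 2 * Complex.cos θ * Complex.sin θ - I * Complex.sin θ ^ 2) * Complex.I_sq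
  ring_nf
  try simp only [Complex.I_sq, Complex.I_pow_three]
  try ring

theorem vv_re (θ : ℝ) : (vv θ).re = 2 * Real.sin θ * (2 - Real.cos θ) := by
  rw [vv_eq]
  simp only [Complex.add_re, Complex.ofReal_re, Complex.mul_re, Complex.I_re, Complex.ofReal_im,
    Complex.I_im]
  ring

theorem vv_im (θ : ℝ) : (vv θ).im = 2 * (1 - Real.cos θ) ^ 2 := by
  rw [vv_eq]
  simp only [Complex.add_im, Complex.ofReal_re, Complex.mul_im, Complex.I_re, Complex.ofReal_im,
    Complex.I_im]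
  ring

theorem ww_re (θ : ℝ) : (ww θ).re = 100 + 2 * Real.sin θ * (2 - Real.cos θ) := by
  rw [ww_apply, Complex.add_re, vv_re]
  rfl

theorem ww_im (θ : ℝ) : (ww θ).im = 2 * (1 - Real.cos θ) ^ 2 := by
  rw [ww_apply, Complex.add_im, vv_im]
  norm_num

theorem vv_im_nonneg (θ : ℝ) : 0 ≤ (vv θ).im := by
  rw [vv_im]; positivity

theorem vv_four (θ : ℝ) : (1 / 2592) * (vv θ).re ^ 4 ≤ (vv θ).im := by
  rw [vv_re, vv_im]
  have h1 := Real.cos_le_one θ
  have h2 := Real.neg_one_le_cos θ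
  have h3 : (2 * Real.sin θ * (2 - Real.cos θ)) ^ 4 =
      16 * (1 - Real.cos θ) ^ 2 * ((1 + Real.cos θ) ^ 2 * (2 - Real.cos θ) ^ 4) := by
    have : Real.sin θ ^ 4 = (1 - Real.cos θ ^ 2) ^ 2 := by
      rw [← Real.sin_sq]; ring
    calc (2 * Real.sin θ * (2 - Real.cos θ)) ^ 4 = 16 * Real.sin θ ^ 4 * (2 - Real.cos θ) ^ 4 := by ring
      _ = _ := by rw [this]; ring
  rw [h3]
  have h4 : (1 + Real.cos θ) ^ 2 * (2 - Real.cos θ) ^ 4 ≤ 2 ^ 2 * 3 ^ 4 := by
    gcongr <;> linarith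
  have h5 : 0 ≤ (1 - Real.cos θ) ^ 2 := sq_nonneg _
  nlinarith

theorem norm_vv : ‖vv‖ ≤ 8 := by
  rw [BoundedContinuousFunction.norm_le (by norm_num)]
  intro θ
  rw [vv_apply, norm_mul, Complex.norm_I, one_mul, norm_mul]
  have h1 : ‖e 1 θ‖ ≤ 1 := ((e 1).norm_coe_le_norm θ).trans (norm_e_le 1)
  have h2 : ‖1 - e 1 θ‖ ≤ 2 := by
    refine (norm_sub_le _ _).trans ?_
    rw [norm_one]; linarith
  have h3 : ‖3 - e 1 θ‖ ≤ 4 := by
    refine (norm_sub_le _ _).trans ?_
    have : ‖(3 : ℂ)‖ = 3 := by simp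
    rw [this]; linarith
  calc ‖1 - e 1 θ‖ * ‖3 - e 1 θ‖ ≤ 2 * 4 := by gcongr
    _ = 8 := by norm_num

theorem ww_re_ge (θ : ℝ) : 90 ≤ (ww θ).re := by
  have h1 := (Complex.abs_re_le_norm (vv θ)).trans ((vv.norm_coe_le_norm θ).trans norm_vv)
  have h2 := neg_abs_le (vv θ).re
  rw [ww_apply, Complex.add_re]
  have : (100 : ℂ).re = 100 := rfl
  rw [this]
  linarith

/-- Powers of `ww` with real parts of `L` vanishing transfer to `vv`. -/
theorem transfer_re (L : B →L[ℂ] ℂ) (h : ∀ n : ℕ, (L ((-ww) ^ n)).re = 0) (n : ℕ) :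
    ∀ m : ℕ, (L ((-ww) ^ m * vv ^ n)).re = 0 := by
  induction n with
  | zero => intro m; rw [pow_zero, mul_one]; exact h m
  | succ n ih =>
    intro m
    have h1 : (-ww) ^ m * vv ^ (n + 1) = -((-ww) ^ (m + 1) * vv ^ n) - (100 : ℝ) • ((-ww) ^ m * vv ^ n) := by
      have : (100 : ℝ) • ((-ww) ^ m * vv ^ n) = 100 * ((-ww) ^ m * vv ^ n) := by
        ext θ
        change ((100 : ℝ) : ℂ) * _ = 100 * _
        norm_num
      rw [this]
      have h2 : vv = ww - 100 := by rw [ww]; ring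
      have h3 : vv ^ (n + 1) = vv ^ n * (ww - 100) := by rw [pow_succ, ← h2]
      rw [h3]
      ring
    have h4 : L ((-ww) ^ m * vv ^ (n + 1)) =
        -(L ((-ww) ^ (m + 1) * vv ^ n)) - ((100 : ℝ) : ℂ) * (L ((-ww) ^ m * vv ^ n)) := by
      rw [h1, map_sub, map_neg]
      congr 1
      exact L.map_smul_of_tower (100 : ℝ) _
    rw [h4, Complex.sub_re, Complex.neg_re, Complex.re_ofReal_mul, ih, ih]
    ring

theorem transfer (L : B →L[ℂ] ℂ) (h : ∀ n : ℕ, L (vv ^ n) = 0) (n : ℕ) :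
    ∀ m : ℕ, L (vv ^ m * ww ^ n) = 0 := by
  induction n with
  | zero => intro m; rw [pow_zero, mul_one]; exact h m
  | succ n ih =>
    intro m
    have h1 : vv ^ m * ww ^ (n + 1) = vv ^ (m + 1) * ww ^ n + (100 : ℂ) • (vv ^ m * ww ^ n) := by
      have : (100 : ℂ) • (vv ^ m * ww ^ n) = 100 * (vv ^ m * ww ^ n) := rfl
      rw [this, pow_succ ww n]
      have : ww = 100 + vv := rfl
      calc vv ^ m * (ww ^ n * ww) = vv ^ m * (ww ^ n * (100 + vv)) := by rw [← this]
        _ = _ := by ring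
    rw [h1, map_add, map_smul, ih, ih, smul_zero, add_zero]

/-- Decay along the imaginary direction. -/
theorem decay (g : K) :
    Tendsto (fun n : ℕ => ((innerSL ℂ g).comp ι) (NormedSpace.exp ((n : ℂ) • (I • vv)))) atTop (𝓝 0) := by
  have h1 : ∀ n : ℕ, ((innerSL ℂ g).comp ι) (NormedSpace.exp ((n : ℂ) • (I • vv))) =
      ∫ θ, ⟪g θ, (NormedSpace.exp ((n : ℂ) • (I • vv)) : B) θ⟫_ℂ ∂μ0 := by
    intro n
    change ⟪g, ι (NormedSpace.exp ((n : ℂ) • (I • vv)))⟫_ℂ = _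
    rw [MeasureTheory.L2.inner_def]
    refine integral_congr_ae ?_
    filter_upwards [ι_coe (NormedSpace.exp ((n : ℂ) • (I • vv)))] with θ h
    rw [h]
  have h2 : ∀ (n : ℕ) (θ : ℝ), ‖(NormedSpace.exp ((n : ℂ) • (I • vv)) : B) θ‖ =
      Real.exp (-(vv θ).im) ^ n := by
    intro n θ
    rw [exp_apply, Complex.norm_exp, ← Real.exp_nat_mul]
    congr 1
    change ((n : ℂ) * (I * vv θ)).re = _
    have : (n : ℂ) * (I * vv θ) = ((n : ℝ) : ℂ) * (I * vv θ) := by push_cast; rfl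
    rw [this, Complex.re_ofReal_mul, Complex.I_mul_re]
  simp_rw [h1]
  have h3 : Tendsto (fun n : ℕ => ∫ θ, ⟪g θ, (NormedSpace.exp ((n : ℂ) • (I • vv)) : B) θ⟫_ℂ ∂μ0)
      atTop (𝓝 (∫ θ, (0 : ℂ) ∂μ0)) := by
    refine tendsto_integral_of_dominated_convergence (fun θ => ‖g θ‖) ?_ ?_ ?_ ?_
    · intro n
      refine AEStronglyMeasurable.inner (Lp.aestronglyMeasurable g) ?_
      exact (NormedSpace.exp ((n : ℂ) • (I • vv)) : B).continuous.aestronglyMeasurable
    · exact ((Lp.memLp g).integrable one_le_two).norm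
    · intro n
      refine ae_of_all _ fun θ => ?_
      refine (norm_inner_le_norm _ _).trans ?_
      rw [h2]
      refine mul_le_of_le_one_right (norm_nonneg _) (pow_le_one₀ (Real.exp_pos _).le ?_)
      rw [Real.exp_le_one_iff]
      have := vv_im_nonneg θ
      linarith
    · have h0 : ∀ᵐ θ ∂μ0, θ ≠ 0 := by
        have : ∀ᵐ θ ∂(volume : Measure ℝ), θ ≠ 0 := by
          have h : (volume : Measure ℝ) {0} = 0 := Real.volume_singleton
          exact measure_eq_zero_iff_ae_notMem.1 h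
        exact ae_restrict_of_ae this
      filter_upwards [ae_mem, h0] with θ hθ hθ0
      rw [tendsto_zero_iff_norm_tendsto_zero]
      have h4 : 0 < (vv θ).im := by
        rw [vv_im]
        have : Real.cos θ ≠ 1 := by
          intro h
          rw [Real.cos_eq_one_iff_of_lt_of_lt (by linarith [hθ.1, Real.pi_pos])
            (by linarith [hθ.2, Real.pi_pos])] at h
          exact hθ0 h
        have : 1 - Real.cos θ ≠ 0 := sub_ne_zero.2 (Ne.symm this)
        positivity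
      have h5 : Tendsto (fun n : ℕ => ‖g θ‖ * Real.exp (-(vv θ).im) ^ n) atTop (𝓝 (‖g θ‖ * 0)) := by
        refine Tendsto.const_mul _ (tendsto_pow_atTop_nhds_zero_of_lt_one (Real.exp_pos _).le ?_)
        rw [Real.exp_lt_one_iff]
        linarith
      rw [mul_zero] at h5
      refine squeeze_zero (fun n => norm_nonneg _) (fun n => ?_) h5
      refine (norm_inner_le_norm _ _).trans ?_
      rw [h2]
  rw [integral_zero] at h3
  exact h3

end Pool.Agent.V110.CC
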