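import Pool.Agent.V110.CC.L2

set_option autoImplicit false

namespace Pool.Agent.V110.CC

open Filter Topology Complex MeasureTheory
open scoped Real ComplexConjugate Nat InnerProductSpace

/-- Restriction of a function to the arc `(-δ, 0)`. -/
noncomputable def cut (δ : ℝ) (f : K) : K :=
  MemLp.toLp _ ((Lp.memLp f).indicator (measurableSet_Ioo (a := -δ) (b := 0)))

theorem cut_coe (δ : ℝ) (f : K) : cut δ f =ᵐ[μ0] (Set.Ioo (-δ) 0).indicator f :=
  MemLp.coeFn_toLp _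

/-- Multipliers vanishing at the origin. -/
def Mul0 (k : ℤ) (h : B) : Prop :=
  ∀ y : K, (∀ j < k, ⟪ι (e j), y⟫_ℂ = 0) → ∀ j ≤ k, ⟪ι (e j), mul h y⟫_ℂ = 0

theorem Mul0.mul {k : ℤ} {g h : B} (hg : Mul0 k g) (hh : Mul0 k h) : Mul0 k (g * h) := by
  intro y hy j hj
  rw [mul_mul]
  exact hg _ (fun i hi => hh y hy i hi.le) j hj

theorem Mul0.pow_succ {k : ℤ} {h : B} (hh : Mul0 k h) (n : ℕ) : Mul0 k (h ^ (n + 1)) := by
  induction n with
  | zero => rw [zero_add, pow_one]; exact hh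
  | succ n ih => rw [_root_.pow_succ]; exact ih.mul hh

theorem Mul0.smul {k : ℤ} {h : B} (hh : Mul0 k h) (c : ℂ) : Mul0 k (c • h) := by
  intro y hy j hj
  rw [← mulL_apply, map_smul, inner_smul_right, mulL_apply, hh y hy j hj, mul_zero]

theorem Mul0.hasSum {k : ℤ} {f : ℕ → B} {s : B} (hs : HasSum f s) (hf : ∀ n, Mul0 k (f n)) :
    Mul0 k s := by
  intro y hy j hj
  have h1 := (hs.mapL (mulL y)).mapL (innerSL ℂ (ι (e j)))
  have h2 : (fun n => innerSL ℂ (ι (e j)) (mulL y (f n))) = fun _ => 0 := by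
    funext n
    exact hf n y hy j hj
  rw [h2] at h1
  exact h1.unique hasSum_zero

theorem mul0_e (k : ℤ) : Mul0 k (e 1) := by
  intro y hy j hj
  have := inner_e_mul j 1 y
  rw [mul_one, mul_one'] at this
  rw [this]
  exact hy _ (by omega)

/-- The closed span of the nonnegative exponentials. -/
noncomputable def P : Submodule ℂ K :=
  (Submodule.span ℂ (Set.range fun n : ℕ => ι (e n))).topologicalClosure

theorem inner_e_e (i j : ℤ) (h : i ≠ j) : ⟪ι (e i), ι (e j)⟫_ℂ = 0 := by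
  have h1 : ⟪ι (e i), ι (e j)⟫_ℂ = ⟪ι (e (i - j)), ι 1⟫_ℂ := by
    rw [MeasureTheory.L2.inner_def, MeasureTheory.L2.inner_def]
    refine integral_congr_ae ?_
    filter_upwards [ι_coe (e i), ι_coe (e j), ι_coe (e (i - j)), ι_coe 1] with θ h1 h2 h3 h4
    rw [h1, h2, h3, h4]
    simp only [RCLike.inner_apply, BoundedContinuousFunction.coe_one, Pi.one_apply]
    rw [conj_e, conj_e, show -(i - j) = j + -i by ring, e_add]
    change _ = 1 * (e j θ * e (-i) θ)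
    ring
  rw [h1]
  exact inner_e_one _ (sub_ne_zero.2 h)

theorem P_neg {x : K} (hx : x ∈ P) (j : ℤ) (hj : j < 0) : ⟪ι (e j), x⟫_ℂ = 0 := by
  have h1 : P ≤ LinearMap.ker (innerSL ℂ (ι (e j))).toLinearMap := by
    refine Submodule.topologicalClosure_minimal _ ?_ ?_
    · rw [Submodule.span_le]
      rintro _ ⟨n, rfl⟩
      exact inner_e_e _ _ (by omega)
    · exact (innerSL ℂ (ι (e j))).isClosed_ker
  exact h1 hx

theorem P_zero {x : K} (hx : x ∈ P) (h : ∀ n : ℕ, ⟪ι (e n), x⟫_ℂ = 0) : x = 0 := by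
  have h1 : P ≤ LinearMap.ker (innerSL ℂ x).toLinearMap := by
    refine Submodule.topologicalClosure_minimal _ ?_ ?_
    · rw [Submodule.span_le]
      rintro _ ⟨n, rfl⟩
      change ⟪x, ι (e n)⟫_ℂ = 0
      rw [← inner_conj_symm, h n, map_zero]
    · exact (innerSL ℂ x).isClosed_ker
  exact inner_self_eq_zero.1 (h1 hx : ⟪x, x⟫_ℂ = 0)

theorem P_first {x : K} (hx : x ∈ P) (h0 : x ≠ 0) :
    ∃ k : ℤ, ⟪ι (e k), x⟫_ℂ ≠ 0 ∧ ∀ j < k, ⟪ι (e j), x⟫_ℂ = 0 := by
  have h1 : ∃ n : ℕ, ⟪ι (e n), x⟫_ℂ ≠ 0 := by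
    by_contra hc
    push Not at hc
    exact h0 (P_zero hx hc)
  classical
  refine ⟨Nat.find h1, Nat.find_spec h1, fun j hj => ?_⟩
  rcases lt_or_ge j 0 with h | h
  · exact P_neg hx j h
  · obtain ⟨n, rfl⟩ := Int.eq_ofNat_of_zero_le h
    have := Nat.find_min h1 (by exact_mod_cast hj : n < Nat.find h1)
    push Not at this
    exact this

/-- The exponent `2 m q / (1 - q)`. -/
theorem expo (k : ℤ) (q : B) (hq : ‖q‖ < 1) (hq0 : Mul0 k q) (m : ℝ) :
    ∃ w : B, Mul0 k w ∧ ∀ θ, w θ = 2 * m * (q θ / (1 - q θ)) := by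
  have h1 : Summable fun n : ℕ => q ^ n := summable_geometric_of_norm_lt_one hq
  have h2 : Summable fun n : ℕ => (2 * m : ℂ) • q ^ (n + 1) :=
    ((summable_nat_add_iff 1).2 h1).const_smul _
  obtain ⟨w, hw⟩ := h2
  refine ⟨w, Mul0.hasSum hw fun n => (hq0.pow_succ n).smul _, fun θ => ?_⟩
  have h3 := hw.mapL (BoundedContinuousFunction.evalCLM ℂ θ)
  have h4 : ‖q θ‖ < 1 := (q.norm_coe_le_norm θ).trans_lt hq
  have h5 := (hasSum_geometric_of_norm_lt_one h4).mul_left (2 * m * q θ)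
  have h6 : (fun n : ℕ => (BoundedContinuousFunction.evalCLM ℂ θ) ((2 * m : ℂ) • q ^ (n + 1))) =
      fun n : ℕ => 2 * m * q θ * q θ ^ n := by
    funext n
    rw [BoundedContinuousFunction.evalCLM_apply]
    simp only [BoundedContinuousFunction.coe_smul, BoundedContinuousFunction.coe_pow, Pi.pow_apply,
      smul_eq_mul]
    ring
  rw [h6] at h3
  have h7 : w θ = 2 * m * q θ * (1 - q θ)⁻¹ := h3.unique h5
  rw [h7]
  ring

theorem exp_sub_one (k : ℤ) (w : B) (hw : Mul0 k w) : Mul0 k (NormedSpace.exp w - 1) := by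
  have h := NormedSpace.exp_series_hasSum_exp' (𝕂 := ℂ) w
  have h2 := (hasSum_nat_add_iff' 1).2 h
  have h3 : ∑ i ∈ Finset.range 1, ((i ! : ℂ))⁻¹ • w ^ i = 1 := by simp
  rw [h3] at h2
  exact Mul0.hasSum h2 fun n => (hw.pow_succ n).smul _

theorem inner_exp (k : ℤ) (w : B) (hw : Mul0 k w) (x : K) (hx : ∀ j < k, ⟪ι (e j), x⟫_ℂ = 0) :
    ⟪ι (e k), mul (NormedSpace.exp w) x⟫_ℂ = ⟪ι (e k), x⟫_ℂ := by
  have h1 := exp_sub_one k w hw x hx k le_rfl
  rw [← mulL_apply, map_sub, mulL_apply, mulL_apply, mul_one', inner_sub_right] at h1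
  exact sub_eq_zero.1 h1

/-- Upper bound of the exponent inside. -/
theorem re_le (z : ℂ) (r : ℝ) (hr : ‖z‖ ≤ r) (h1 : r < 1) : (z / (1 - z)).re ≤ 1 / (1 - r) := by
  have h2 : 1 - r ≤ ‖1 - z‖ := by
    have := norm_sub_norm_le (1 : ℂ) z
    rw [norm_one] at this
    linarith
  refine (Complex.re_le_norm _).trans ?_
  rw [norm_div]
  have h3 : 0 < 1 - r := by linarith
  gcongr
  linarith

/-- Upper bound of the exponent off the arc. -/
theorem re_le_off (z : ℂ) (h : 2 * z.re ≤ 3 * (z.re ^ 2 + z.im ^ 2) - 1) (hz : 1 - z ≠ 0) :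
    (z / (1 - z)).re ≤ -(1 / 4) := by
  rw [Complex.div_re]
  have h0 : 0 < Complex.normSq (1 - z) := Complex.normSq_pos.2 hz
  rw [← add_div, div_le_iff₀ h0, Complex.normSq_apply]
  simp only [Complex.sub_re, Complex.one_re, Complex.sub_im, Complex.one_im]
  nlinarith

theorem cos_off (δ θ : ℝ) (h0 : 0 < δ) (h1 : δ < 1) (hθ : θ ∈ Set.Ioc (-π) π)
    (hoff : θ ∉ Set.Ioo (-δ) 0) : Real.cos (θ + δ / 2) ≤ 1 - δ ^ 2 / 20 := by
  have hpi := Real.pi_pos
  have hpi3 := Real.pi_gt_three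
  have hpi4 := Real.pi_lt_d2
  obtain ⟨ha, hb⟩ := hθ
  rcases le_or_gt (θ + δ / 2) π with h | h
  · have h2 : |θ + δ / 2| ≤ π := by
      rw [abs_le]; constructor <;> linarith
    have h3 := Real.cos_le_one_sub_mul_cos_sq h2
    have h4 : (δ / 2) ^ 2 ≤ (θ + δ / 2) ^ 2 := by
      rw [sq_le_sq, abs_of_pos (by positivity)]
      rw [Set.mem_Ioo, not_and_or, not_lt, not_lt] at hoff
      rcases hoff with h5 | h5
      · rw [abs_of_nonpos (by linarith)]; linarith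
      · rw [abs_of_nonneg (by linarith)]; linarith
    have h5 : 1 / 5 ≤ 2 / π ^ 2 := by
      rw [div_le_div_iff₀ (by norm_num) (by positivity)]
      nlinarith
    have h6 : 1 / 5 * (δ / 2) ^ 2 ≤ 2 / π ^ 2 * (θ + δ / 2) ^ 2 := by gcongr
    nlinarith
  · have h2 : Real.cos (θ + δ / 2) ≤ 0 :=
      Real.cos_nonpos_of_pi_div_two_le_of_le (by linarith) (by linarith)
    nlinarith

theorem mem_cut_le (w : B) (δ c : ℝ) (x : K) (hw : ∀ θ, Real.exp (w θ).re ≤ c) :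
    ‖mul (NormedSpace.exp w) (cut δ x)‖ ≤ c * ‖cut δ x‖ := by
  refine Lp.norm_le_mul_norm_of_ae_le_mul ?_
  filter_upwards [mul_coe (NormedSpace.exp w) (cut δ x)] with θ h1
  rw [h1, norm_mul, exp_apply, Complex.norm_exp]
  gcongr
  exact hw θ

theorem ae_mem : ∀ᵐ θ ∂μ0, θ ∈ Set.Ioc (-π) π := ae_restrict_mem measurableSet_Ioc

theorem off_cut_le (w : B) (δ c : ℝ) (x : K) (hc : 0 ≤ c)
    (hw : ∀ θ, θ ∈ Set.Ioc (-π) π → θ ∉ Set.Ioo (-δ) 0 → Real.exp (w θ).re ≤ c) :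
    ‖mul (NormedSpace.exp w) (x - cut δ x)‖ ≤ c * ‖x‖ := by
  refine Lp.norm_le_mul_norm_of_ae_le_mul ?_
  filter_upwards [mul_coe (NormedSpace.exp w) (x - cut δ x), Lp.coeFn_sub x (cut δ x), cut_coe δ x,
    ae_mem] with θ h1 h2 h3 h4
  rw [h1, norm_mul, exp_apply, Complex.norm_exp, h2, Pi.sub_apply, h3]
  by_cases h5 : θ ∈ Set.Ioo (-δ) 0
  · rw [Set.indicator_of_mem h5, sub_self, norm_zero, mul_zero]
    positivity
  · rw [Set.indicator_of_notMem h5, sub_zero]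
    gcongr
    exact hw θ h4 h5

theorem norm_e_le (n : ℤ) : ‖e n‖ ≤ 1 :=
  BoundedContinuousFunction.norm_ofNormedAddCommGroup_le _ zero_le_one _

/-- The mass of a nonzero analytic function on a short arc is not too small. -/
theorem flat {x : K} (hx : x ∈ P) (h0 : x ≠ 0) :
    ∃ c > 0, ∃ C ≥ 0, ∀ δ : ℝ, 0 < δ → δ < 1 → c * Real.exp (-C / δ ^ 2) ≤ ‖cut δ x‖ := by
  obtain ⟨k, hk, hj⟩ := P_first hx h0
  set b := ‖⟪ι (e k), x⟫_ℂ‖ with hb
  set E := ‖ι (e k)‖ with hE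
  have hb0 : 0 < b := norm_pos_iff.2 hk
  have hE0 : 0 < E := by
    rw [hE, norm_pos_iff]
    intro h
    rw [h, inner_zero_left] at hk
    exact hk rfl
  have hx0 : 0 < ‖x‖ := norm_pos_iff.2 h0
  obtain ⟨m, hm0, hm⟩ : ∃ m : ℝ, 0 ≤ m ∧ E * (Real.exp (-(m / 2)) * ‖x‖) ≤ b / 2 := by
    have h1 : Tendsto (fun m : ℝ => E * (Real.exp (-(m / 2)) * ‖x‖)) atTop (𝓝 (E * (0 * ‖x‖))) := by
      refine Tendsto.const_mul _ (Tendsto.mul_const _ ?_)
      exact Real.tendsto_exp_neg_atTop_nhds_zero.comp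
        (tendsto_id.atTop_div_const (by norm_num))
    rw [zero_mul, mul_zero] at h1
    obtain ⟨m, h2, h3⟩ := ((eventually_ge_atTop (0 : ℝ)).and
      (h1.eventually (ge_mem_nhds (half_pos hb0)))).exists
    exact ⟨m, h2, h3⟩
  refine ⟨b / 2 / E, by positivity, 160 * m, by positivity, fun δ hδ hδ1 => ?_⟩
  set r : ℝ := 1 - δ ^ 2 / 80 with hr
  have hr0 : 0 ≤ r := by nlinarith
  have hr2 : 1 / 5 ≤ r := by nlinarith
  have hr1 : r < 1 := by
    have : 0 < δ ^ 2 / 80 := by positivity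
    linarith
  set q : B := ((r : ℂ) * exp ((δ / 2 : ℝ) * I)) • e 1 with hq
  have hqθ : ∀ θ, q θ = r * exp ((θ + δ / 2 : ℝ) * I) := by
    intro θ
    change ((r : ℂ) * exp ((δ / 2 : ℝ) * I)) * e 1 θ = _
    rw [e_apply, mul_assoc, ← Complex.exp_add]
    congr 2
    push_cast
    ring
  have hqn : ‖q‖ ≤ r := by
    rw [hq, norm_smul, norm_mul, Complex.norm_exp_ofReal_mul_I, mul_one, Complex.norm_real,
      Real.norm_of_nonneg hr0]
    exact mul_le_of_le_one_right hr0 (norm_e_le 1)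
  obtain ⟨w, hw0, hw⟩ := expo k q (hqn.trans_lt hr1) ((mul0_e k).smul _) m
  have h1 : ∀ θ, Real.exp (w θ).re ≤ Real.exp (160 * m / δ ^ 2) := by
    intro θ
    rw [Real.exp_le_exp, hw]
    have h2 : (2 * (m : ℂ) * (q θ / (1 - q θ))).re = 2 * m * (q θ / (1 - q θ)).re := by
      have : (2 * (m : ℂ)) = ((2 * m : ℝ) : ℂ) := by push_cast; rfl
      rw [this, Complex.re_ofReal_mul]
    rw [h2]
    have h3 := re_le (q θ) r ((q.norm_coe_le_norm θ).trans hqn) hr1
    have h4 : 1 / (1 - r) = 80 / δ ^ 2 := by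
      rw [hr]
      field_simp
      ring
    rw [h4] at h3
    calc 2 * m * (q θ / (1 - q θ)).re ≤ 2 * m * (80 / δ ^ 2) := by gcongr
      _ = 160 * m / δ ^ 2 := by ring
  have h2 : ∀ θ, θ ∈ Set.Ioc (-π) π → θ ∉ Set.Ioo (-δ) 0 →
      Real.exp (w θ).re ≤ Real.exp (-(m / 2)) := by
    intro θ hθ hoff
    rw [Real.exp_le_exp, hw]
    have h2 : (2 * (m : ℂ) * (q θ / (1 - q θ))).re = 2 * m * (q θ / (1 - q θ)).re := by
      have : (2 * (m : ℂ)) = ((2 * m : ℝ) : ℂ) := by push_cast; rfl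
      rw [this, Complex.re_ofReal_mul]
    rw [h2]
    have h3 := cos_off δ θ hδ hδ1 hθ hoff
    have h4 : (q θ).re = r * Real.cos (θ + δ / 2) := by
      rw [hqθ, Complex.re_ofReal_mul, Complex.exp_ofReal_mul_I_re]
    have h5 : (q θ).im = r * Real.sin (θ + δ / 2) := by
      rw [hqθ, Complex.im_ofReal_mul, Complex.exp_ofReal_mul_I_im]
    have h6 : (q θ / (1 - q θ)).re ≤ -(1 / 4) := by
      refine re_le_off _ ?_ ?_
      · have h7 : (q θ).re ^ 2 + (q θ).im ^ 2 = r ^ 2 := by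
          rw [h4, h5]
          have := Real.sin_sq_add_cos_sq (θ + δ / 2)
          calc (r * Real.cos (θ + δ / 2)) ^ 2 + (r * Real.sin (θ + δ / 2)) ^ 2 =
              r ^ 2 * (Real.sin (θ + δ / 2) ^ 2 + Real.cos (θ + δ / 2) ^ 2) := by ring
            _ = r ^ 2 := by rw [this, mul_one]
        rw [h7, h4]
        have h8 : r * Real.cos (θ + δ / 2) ≤ r * (1 - δ ^ 2 / 20) :=
          mul_le_mul_of_nonneg_left h3 hr0
        have h9 : δ ^ 2 / 20 = 4 * (1 - r) := by rw [hr]; ring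
        rw [h9] at h8
        have h10 : 0 ≤ (5 * r - 1) * (1 - r) := mul_nonneg (by linarith) (by linarith)
        nlinarith
      · intro h7
        have h8 : ‖q θ‖ < 1 := ((q.norm_coe_le_norm θ).trans hqn).trans_lt hr1
        rw [sub_eq_zero] at h7
        rw [← h7, norm_one] at h8
        exact lt_irrefl _ h8
    nlinarith
  have h3 := inner_exp k w hw0 x hj
  have h4 : mul (NormedSpace.exp w) x =
      mul (NormedSpace.exp w) (cut δ x) + mul (NormedSpace.exp w) (x - cut δ x) := by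
    rw [← map_add]
    congr 1
    abel
  have h5 : b ≤ E * (Real.exp (160 * m / δ ^ 2) * ‖cut δ x‖) + E * (Real.exp (-(m / 2)) * ‖x‖) := by
    rw [hb, ← h3, h4, inner_add_right]
    refine (norm_add_le _ _).trans (add_le_add ?_ ?_)
    · refine (norm_inner_le_norm _ _).trans ?_
      gcongr
      exact mem_cut_le w δ _ x h1
    · refine (norm_inner_le_norm _ _).trans ?_
      gcongr
      exact off_cut_le w δ _ x (Real.exp_pos _).le h2
  have h6 : b / 2 ≤ E * (Real.exp (160 * m / δ ^ 2) * ‖cut δ x‖) := by linarith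
  have h7 : b / 2 / E ≤ Real.exp (160 * m / δ ^ 2) * ‖cut δ x‖ := by
    rw [div_le_iff₀ hE0]
    linarith
  calc b / 2 / E * Real.exp (-(160 * m) / δ ^ 2) ≤
      Real.exp (160 * m / δ ^ 2) * ‖cut δ x‖ * Real.exp (-(160 * m) / δ ^ 2) := by gcongr
    _ = ‖cut δ x‖ * (Real.exp (160 * m / δ ^ 2) * Real.exp (-(160 * m) / δ ^ 2)) := by ring
    _ = ‖cut δ x‖ := by
      rw [← Real.exp_add, show 160 * m / δ ^ 2 + -(160 * m) / δ ^ 2 = 0 by ring, Real.exp_zero,
        mul_one]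

end Pool.Agent.V110.CC
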