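import Pool.Agent.V110.CC.Cyc

set_option autoImplicit false

namespace Pool.Agent.V110.CC

open Filter Topology Complex MeasureTheory
open scoped Real ComplexConjugate Nat InnerProductSpace

/-- Lebesgue measure on `(-π, π]`. -/
noncomputable def μ0 : Measure ℝ := volume.restrict (Set.Ioc (-π) π)

noncomputable instance : IsFiniteMeasure μ0 := by unfold μ0; infer_instance

/-- The Hilbert space `L²(-π, π)`. -/
noncomputable abbrev K := Lp ℂ 2 μ0

/-- A bounded continuous function as an element of `K`. -/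
noncomputable def ι : B →L[ℂ] K := BoundedContinuousFunction.toLp 2 μ0 ℂ

theorem ι_coe (f : B) : ι f =ᵐ[μ0] f := BoundedContinuousFunction.coeFn_toLp 2 μ0 ℂ f

theorem mul_memLp (m : B) (f : K) : MemLp (fun x => m x * f x) 2 μ0 := by
  refine (Lp.memLp f).of_le_mul (c := ‖m‖) ?_ (ae_of_all _ fun x => ?_)
  · exact m.continuous.aestronglyMeasurable.mul (Lp.aestronglyMeasurable f)
  · rw [norm_mul]
    gcongr
    exact m.norm_coe_le_norm x

/-- Multiplication by a bounded continuous function. -/
noncomputable def mul (m : B) : K →L[ℂ] K :=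
  LinearMap.mkContinuous
    { toFun := fun f => (mul_memLp m f).toLp _
      map_add' := fun f g => by
        ext1
        filter_upwards [(mul_memLp m (f + g)).coeFn_toLp, (mul_memLp m f).coeFn_toLp,
          (mul_memLp m g).coeFn_toLp, Lp.coeFn_add f g,
          Lp.coeFn_add ((mul_memLp m f).toLp _) ((mul_memLp m g).toLp _)] with x h1 h2 h3 h4 h5
        rw [h1, h5, Pi.add_apply, h2, h3, h4, Pi.add_apply, mul_add]
      map_smul' := fun c f => by
        ext1
        filter_upwards [(mul_memLp m (c • f)).coeFn_toLp, (mul_memLp m f).coeFn_toLp,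
          Lp.coeFn_smul c f, Lp.coeFn_smul c ((mul_memLp m f).toLp _)] with x h1 h2 h3 h4
        rw [h1, RingHom.id_apply, h4, Pi.smul_apply, h2, h3, Pi.smul_apply, smul_eq_mul, smul_eq_mul]
        ring }
    ‖m‖ (fun f => by
      refine Lp.norm_le_mul_norm_of_ae_le_mul ?_
      filter_upwards [(mul_memLp m f).coeFn_toLp] with x h1
      change ‖((mul_memLp m f).toLp _ : K) x‖ ≤ _
      rw [h1, norm_mul]
      gcongr
      exact m.norm_coe_le_norm x)

theorem mul_coe (m : B) (f : K) : mul m f =ᵐ[μ0] fun x => m x * f x :=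
  (mul_memLp m f).coeFn_toLp

theorem mul_mul (m n : B) (f : K) : mul (m * n) f = mul m (mul n f) := by
  ext1
  filter_upwards [mul_coe (m * n) f, mul_coe m (mul n f), mul_coe n f] with x h1 h2 h3
  rw [h1, h2, h3]
  simp [mul_assoc]

theorem mul_one' (f : K) : mul 1 f = f := by
  ext1
  filter_upwards [mul_coe 1 f] with x h1
  rw [h1]
  simp

theorem mul_ι (m n : B) : mul m (ι n) = ι (m * n) := by
  ext1
  filter_upwards [mul_coe m (ι n), ι_coe n, ι_coe (m * n)] with x h1 h2 h3
  rw [h1, h2, h3]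
  rfl

/-- Multiplication as a bounded linear function of the multiplier. -/
noncomputable def mulL (f : K) : B →L[ℂ] K :=
  LinearMap.mkContinuous
    { toFun := fun m => mul m f
      map_add' := fun m n => by
        ext1
        filter_upwards [mul_coe (m + n) f, mul_coe m f, mul_coe n f,
          Lp.coeFn_add (mul m f) (mul n f)] with x h1 h2 h3 h4
        rw [h1, h4, Pi.add_apply, h2, h3]
        simp [add_mul]
      map_smul' := fun c m => by
        ext1
        filter_upwards [mul_coe (c • m) f, mul_coe m f, Lp.coeFn_smul c (mul m f)] with x h1 h2 h3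
        rw [h1, RingHom.id_apply, h3, Pi.smul_apply, h2]
        simp [mul_assoc] }
    ‖f‖ (fun m => by
      change ‖mul m f‖ ≤ _
      rw [mul_comm]
      refine Lp.norm_le_mul_norm_of_ae_le_mul ?_
      filter_upwards [mul_coe m f] with x h1
      rw [h1, norm_mul]
      gcongr
      exact m.norm_coe_le_norm x)

theorem mulL_apply (f : K) (m : B) : mulL f m = mul m f := rfl

theorem mul_pow (m : B) (f : K) (n : ℕ) : ((mul m) ^ n) f = mul (m ^ n) f := by
  induction n with
  | zero => rw [pow_zero, pow_zero, mul_one']; rfl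
  | succ n ih =>
    rw [pow_succ', ContinuousLinearMap.mul_apply, ih, ← mul_mul, pow_succ']

/-- The exponentials. -/
noncomputable def e (n : ℤ) : B := BoundedContinuousFunction.ofNormedAddCommGroup
  (fun θ : ℝ => exp (n * θ * I)) (by fun_prop) 1 (fun θ => by
    have : (n : ℂ) * θ * I = ((n * θ : ℝ) : ℂ) * I := by push_cast; ring
    rw [this, Complex.norm_exp_ofReal_mul_I])

theorem e_apply (n : ℤ) (θ : ℝ) : e n θ = exp (n * θ * I) := rfl

theorem e_add (m n : ℤ) : e (m + n) = e m * e n := by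
  ext θ
  change e (m + n) θ = e m θ * e n θ
  rw [e_apply, e_apply, e_apply, ← Complex.exp_add]
  congr 1
  push_cast
  ring

theorem e_zero : e 0 = 1 := by
  ext θ
  change e 0 θ = 1
  rw [e_apply]
  simp

theorem conj_e (n : ℤ) (θ : ℝ) : conj (e n θ) = e (-n) θ := by
  rw [e_apply, e_apply, ← Complex.exp_conj]
  congr 1
  simp

theorem inner_e_mul (j : ℤ) (f : B) (x : K) :
    ⟪ι (e j), mul (e 1 * f) x⟫_ℂ = ⟪ι (e (j - 1)), mul f x⟫_ℂ := by
  rw [MeasureTheory.L2.inner_def, MeasureTheory.L2.inner_def]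
  refine integral_congr_ae ?_
  filter_upwards [ι_coe (e j), ι_coe (e (j - 1)), mul_coe (e 1 * f) x, mul_coe f x] with θ h1 h2 h3 h4
  rw [h1, h2, h3, h4]
  simp only [RCLike.inner_apply, BoundedContinuousFunction.coe_mul, Pi.mul_apply]
  rw [conj_e, conj_e]
  have : e (-(j - 1)) θ = e (-j) θ * e 1 θ := by
    rw [show -(j - 1) = -j + 1 by ring, e_add]; rfl
  rw [this]
  ring

theorem inner_e_one (j : ℤ) (hj : j ≠ 0) : ⟪ι (e j), ι 1⟫_ℂ = 0 := by
  rw [MeasureTheory.L2.inner_def]
  have h1 : ∫ θ, ⟪ι (e j) θ, ι 1 θ⟫_ℂ ∂μ0 = ∫ θ, exp ((-(j * I) : ℂ) * (θ : ℂ)) ∂μ0 := by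
    refine integral_congr_ae ?_
    filter_upwards [ι_coe (e j), ι_coe 1] with θ h1 h2
    rw [h1, h2]
    simp only [RCLike.inner_apply, BoundedContinuousFunction.coe_one, Pi.one_apply, one_mul]
    rw [conj_e, e_apply]
    congr 1
    push_cast
    ring
  rw [h1, μ0, ← intervalIntegral.integral_of_le (by linarith [Real.pi_pos])]
  have hj' : (-(j * I) : ℂ) ≠ 0 := by
    simp [hj]
  rw [integral_exp_mul_complex hj', div_eq_zero_iff]
  left
  have h2 : (-(j * I) : ℂ) * (π : ℂ) = (-(j * I) : ℂ) * ((-π : ℝ) : ℂ) + ((-j : ℤ) : ℂ) * (2 * π * I) := by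
    push_cast
    ring
  rw [h2, Complex.exp_add, Complex.exp_int_mul_two_pi_mul_I, mul_one, sub_self]

end Pool.Agent.V110.CC
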