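import Pool.Agent.V110.CC.Fin

set_option autoImplicit false

namespace Pool.Agent.V110.CC

open Filter Topology Complex MeasureTheory
open scoped Real ComplexConjugate Nat InnerProductSpace

/-- The closed span of the powers of the symbol. -/
noncomputable def HH : Submodule ℂ K :=
  (Submodule.span ℂ (Set.range fun n : ℕ => ι (ww ^ n))).topologicalClosure

theorem HH_closed : IsClosed (HH : Set K) := Submodule.isClosed_topologicalClosure _

instance : CompleteSpace HH := HH_closed.completeSpace_coe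

theorem HH_le (W : Submodule ℂ K) (hW : IsClosed (W : Set K)) (h : ∀ n : ℕ, ι (ww ^ n) ∈ W) :
    HH ≤ W := by
  refine Submodule.topologicalClosure_minimal _ ?_ hW
  rw [Submodule.span_le]
  rintro _ ⟨n, rfl⟩
  exact h n

theorem mem_HH (n : ℕ) : ι (ww ^ n) ∈ HH :=
  Submodule.le_topologicalClosure _ (Submodule.subset_span ⟨n, rfl⟩)

theorem HH_inv : ∀ x ∈ HH, mul ww x ∈ HH := by
  have h : HH ≤ HH.comap (mul ww).toLinearMap := by
    refine HH_le _ (HH_closed.preimage (mul ww).continuous) fun n => ?_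
    change mul ww (ι (ww ^ n)) ∈ HH
    rw [mul_ι, ← pow_succ']
    exact mem_HH _
  exact h

/-- Multiplication by the symbol on the closed span of its powers. -/
noncomputable def SS : HH →L[ℂ] HH :=
  ((mul ww).comp HH.subtypeL).codRestrict HH fun x => HH_inv x x.2

theorem SS_coe (x : HH) : (SS x : K) = mul ww x := rfl

theorem SS_pow_coe (n : ℕ) (x : HH) : ((SS ^ n) x : K) = mul (ww ^ n) x := by
  induction n with
  | zero => rw [pow_zero, pow_zero, mul_one']; rfl
  | succ n ih =>
    rw [pow_succ', pow_succ', mul_mul, ← ih]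
    rfl

theorem neg_SS_pow_coe (n : ℕ) (x : HH) : (((-SS) ^ n) x : K) = mul ((-ww) ^ n) x := by
  induction n with
  | zero => rw [pow_zero, pow_zero, mul_one']; rfl
  | succ n ih =>
    have h1 : (((-SS) ^ (n + 1)) x : K) = -(mul ww (((-SS) ^ n) x : HH)) := by
      rw [pow_succ']
      rfl
    have h2 : (-ww) ^ (n + 1) = -(ww * (-ww) ^ n) := by rw [pow_succ']; ring
    have h3 : mul (-(ww * (-ww) ^ n)) (x : K) = -(mul (ww * (-ww) ^ n) (x : K)) := by
      rw [← mulL_apply, map_neg, mulL_apply]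
    rw [h1, ih, h2, h3, mul_mul]

/-- The constant function as an element of the space. -/
noncomputable def x0 : HH := ⟨ι 1, by simpa using mem_HH 0⟩

theorem neg_SS_pow_x0 (n : ℕ) : (((-SS) ^ n) x0 : K) = ι ((-ww) ^ n) := by
  rw [neg_SS_pow_coe]
  change mul ((-ww) ^ n) (ι 1) = _
  rw [mul_ι, mul_one]

/-- `-SS` is convex-cyclic. -/
theorem dense_neg : Dense (convexHull ℝ (Set.range fun n : ℕ => ((-SS) ^ n) x0)) := by
  intro y
  by_contra hy
  obtain ⟨f, u, hf, hu⟩ := RCLike.geometric_hahn_banach_closed_point (𝕜 := ℂ)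
    (convex_convexHull ℝ (Set.range fun n : ℕ => ((-SS) ^ n) x0)).closure isClosed_closure hy
  obtain ⟨g, rfl⟩ := (InnerProductSpace.toDual ℂ HH).surjective f
  simp only [InnerProductSpace.toDual_apply_apply] at hf hu
  set L : B →L[ℂ] ℂ := (innerSL ℂ (g : K)).comp ι with hL
  have h1 : ∀ n : ℕ, (L ((-ww) ^ n)).re ≤ u := by
    intro n
    have h2 := hf (((-SS) ^ n) x0) (subset_closure (subset_convexHull _ _ ⟨n, rfl⟩))
    rw [Submodule.coe_inner, neg_SS_pow_x0] at h2
    exact h2.le
  have h2 := vanish L ww (fun θ => le_trans (by norm_num) (ww_re_ge θ))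
    (by
      have : ww - 100 = vv := by rw [ww]; ring
      rw [this]
      exact norm_vv.trans (by norm_num)) u h1
  have h3 := transfer_re L h2
  have h4 := all_zero L vv (fun n => by simpa using h3 n 0) vv_im_nonneg _ (by norm_num)
    vv_four (decay g)
  have h5 := transfer L h4
  have h6 : ∀ n : ℕ, ⟪(g : K), ι (ww ^ n)⟫_ℂ = 0 := fun n => by
    have := h5 n 0
    rwa [pow_zero, one_mul] at this
  have h7 : HH ≤ LinearMap.ker (innerSL ℂ (g : K)).toLinearMap :=
    HH_le _ (innerSL ℂ (g : K)).isClosed_ker h6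
  have h8 : (g : K) = 0 := inner_self_eq_zero.1 (h7 g.2 : ⟪(g : K), (g : K)⟫_ℂ = 0)
  have h9 : g = 0 := Subtype.ext h8
  have h10 := hf (((-SS) ^ 0) x0) (subset_closure (subset_convexHull _ _ ⟨0, rfl⟩))
  rw [h9, inner_zero_left] at h10 hu
  exact lt_asymm h10 hu

/-- Multipliers preserving `P`. -/
noncomputable def DD : Subalgebra ℂ B where
  carrier := {h | ∀ y ∈ P, mul h y ∈ P}
  mul_mem' := by
    intro g h hg hh y hy
    rw [mul_mul]
    exact hg _ (hh y hy)
  add_mem' := by
    intro g h hg hh y hy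
    rw [← mulL_apply, map_add]
    exact P.add_mem (hg y hy) (hh y hy)
  algebraMap_mem' := by
    intro c y hy
    rw [Algebra.algebraMap_eq_smul_one, ← mulL_apply, map_smul, mulL_apply, mul_one']
    exact P.smul_mem c hy

theorem P_closed : IsClosed (P : Set K) := Submodule.isClosed_topologicalClosure _

theorem e1_mem_DD : e 1 ∈ DD := by
  have h : P ≤ P.comap (mul (e 1)).toLinearMap := by
    refine Submodule.topologicalClosure_minimal _ ?_ (P_closed.preimage (mul (e 1)).continuous)
    rw [Submodule.span_le]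
    rintro _ ⟨n, rfl⟩
    change mul (e 1) (ι (e n)) ∈ P
    rw [mul_ι, ← e_add]
    refine Submodule.le_topologicalClosure _ (Submodule.subset_span ⟨n + 1, ?_⟩)
    change ι (e ((n + 1 : ℕ) : ℤ)) = _
    rw [Nat.cast_add, add_comm]
    rfl
  exact h

theorem ww_mem_DD : ww ∈ DD := by
  refine DD.add_mem (ofNat_mem DD 100) (DD.smul_mem (DD.mul_mem ?_ ?_) I)
  · exact DD.sub_mem DD.one_mem e1_mem_DD
  · exact DD.sub_mem (ofNat_mem DD 3) e1_mem_DD

theorem HH_le_P : HH ≤ P := by
  refine HH_le _ P_closed fun n => ?_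
  have h1 : ι 1 ∈ P := by
    refine Submodule.le_topologicalClosure _ (Submodule.subset_span ⟨0, ?_⟩)
    change ι (e ((0 : ℕ) : ℤ)) = _
    rw [Nat.cast_zero, e_zero]
  have h2 := DD.pow_mem ww_mem_DD n (ι 1) h1
  rwa [mul_ι, mul_one] at h2

end Pool.Agent.V110.CC
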